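import Pool.Agent.N365.HY.Stm

/-!
# Part A: a number field over which geometrically isomorphic hyperelliptic curves become isomorphic
-/

set_option autoImplicit false

namespace Pool.Agent.N365.HY

open Polynomial NumberField IsDedekindDomain
open Pool.Agent.W318

theorem a_hyp_map {k k' : Type} [Field k] [Field k'] [CharZero k] (f : k →+* k') {g : ℕ} {F : k[X]}
    (hF : IsHyp g F) : IsHyp g (F.map f) := by
  have h1 : GoodForm (g + 1) F := by
    refine ⟨hF.1, ?_⟩
    rcases hF.2 with h | h
    · right; omega
    · left; omega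
  have h2 := h1.map f
  exact ⟨h2.1, by rw [natDegree_map]; exact hF.2⟩

theorem t_A : PartA := by
  intro K _ _ g hg P Q hP hQ hiso
  obtain ⟨φ⟩ := hiso
  set Kb := AlgebraicClosure K with hKb
  have hP' := a_hyp_map (algebraMap K Kb) hP
  have hQ' := a_hyp_map (algebraMap K Kb) hQ
  have hdeg : max (2 * (0 : Kb[X]).natDegree) (Q.map (algebraMap K Kb)).natDegree ≤ 2 * g + 2 := by
    rw [natDegree_zero, mul_zero, max_eq_right (Nat.zero_le _)]
    rcases hQ'.2 with h | h <;> omega
  obtain ⟨a, b, c, d, l, hdet, hl, he⟩ := bridge hg hP'.1 hP'.2 hdeg φ.symm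
  have he' : Q.map (algebraMap K Kb) =
      C ((l / 2) ^ 2) * act (g + 1 + (g + 1)) a b c d (P.map (algebraMap K Kb)) := by
    have h2 : (C ((1 : Kb) / 4) * 4 : Kb[X]) = 1 := by
      rw [show (4 : Kb[X]) = C 4 from (map_ofNat C 4).symm, ← C_mul]
      norm_num
    have h3 : C ((1 : Kb) / 4) * (4 * Q.map (algebraMap K Kb) + 0 ^ 2) =
        C ((1 : Kb) / 4) * (C (l ^ 2) * act (g + 1 + (g + 1)) a b c d (P.map (algebraMap K Kb))) := by
      rw [he]
    have h4 : (C ((l / 2) ^ 2) : Kb[X]) = C ((1 : Kb) / 4) * C (l ^ 2) := by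
      rw [← C_mul]
      congr 1
      ring
    rw [h4, mul_assoc, ← h3]
    linear_combination (-Q.map (algebraMap K Kb)) * h2
  set S : Set Kb := {a, b, c, d, l} ∪ P.rootSet Kb with hS
  have hfin : Finite S := by
    have h1 : S.Finite := Set.Finite.union (Set.toFinite _) (rootSet_finite P Kb)
    exact h1.to_subtype
  set M : IntermediateField K Kb := IntermediateField.adjoin K S with hM
  have hMfin : FiniteDimensional K M := IntermediateField.finiteDimensional_adjoin fun x _ =>
    (Algebra.IsAlgebraic.isAlgebraic (R := K) x).isIntegral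
  have hsub : ∀ x ∈ S, x ∈ M := fun x hx => IntermediateField.subset_adjoin K S hx
  have ha : a ∈ M := hsub a (by simp [hS])
  have hb : b ∈ M := hsub b (by simp [hS])
  have hc : c ∈ M := hsub c (by simp [hS])
  have hd : d ∈ M := hsub d (by simp [hS])
  have hl' : l ∈ M := hsub l (by simp [hS])
  have hNF : NumberField M := NumberField.of_module_finite K M
  refine ⟨M, inferInstance, hNF, inferInstance, ?_, ?_⟩
  · refine IntermediateField.splits_of_splits (IsAlgClosed.splits _) fun x hx => hsub x ?_
    exact Set.mem_union_right _ hx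
  · refine ⟨⟨a, ha⟩, ⟨b, hb⟩, ⟨c, hc⟩, ⟨d, hd⟩, ⟨l, hl'⟩ / 2, ?_, ?_, ?_⟩
    · intro h
      apply hdet
      have := congrArg (algebraMap M Kb) h
      simpa using this
    · refine div_ne_zero ?_ two_ne_zero
      intro h
      apply hl
      exact congrArg (algebraMap M Kb) h
    · apply Polynomial.map_injective (algebraMap M Kb) (algebraMap M Kb).injective
      rw [Polynomial.map_mul, Polynomial.map_C, act_map, Polynomial.map_map, Polynomial.map_map,
        ← IsScalarTower.algebraMap_eq K M Kb, he']
      congr 2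

end Pool.Agent.N365.HY
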