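import Pool.Agent.N365.HY.Stm

/-!
# Project HY, part B: invariants and discriminants of equivalent forms (helper316)
-/

set_option autoImplicit false

namespace Pool.Agent.N365.HY

open Polynomial NumberField IsDedekindDomain WithZero
open Pool.Agent.W318

theorem b_ev_map {R S : Type*} [CommRing R] [CommRing S] (f : R →+* S) (n : ℕ)
    (I : MvPolynomial (Fin (n + 1)) ℤ) (F : R[X]) : ev n I (F.map f) = f (ev n I F) := by
  unfold ev
  rw [MvPolynomial.map_aeval, MvPolynomial.aeval_def]
  simp only [Polynomial.coeff_map]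
  have h : f.comp (algebraMap ℤ R) = algebraMap ℤ S := RingHom.ext_int _ _
  rw [h]
  rfl

theorem b_ev_smul {R : Type*} [CommRing R] {n k : ℕ} {I : MvPolynomial (Fin (n + 1)) ℤ}
    (hI : I.IsHomogeneous k) (r : R) (F : R[X]) : ev n I (C r * F) = r ^ k * ev n I F := by
  unfold ev
  simp only [coeff_C_mul]
  rw [MvPolynomial.aeval_def, MvPolynomial.aeval_def, MvPolynomial.eval₂_eq',
    MvPolynomial.eval₂_eq', Finset.mul_sum]
  refine Finset.sum_congr rfl fun d hd => ?_
  have h1 : ∑ i, d i = k := by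
    have h2 := hI.degree_eq_sum_deg_support hd
    rw [h2, Finset.sum_subset (Finset.subset_univ d.support)]
    intro i _ hi
    exact Finsupp.notMem_support_iff.1 hi
  simp only [mul_pow, Finset.prod_mul_distrib, Finset.prod_pow_eq_pow_sum, h1]
  ring

theorem b_act_scale {k : Type*} [Field k] (n : ℕ) (μ a b c d : k) (F : k[X]) :
    act n (μ * a) (μ * b) (μ * c) (μ * d) F = C (μ ^ n) * act n a b c d F := by
  unfold act
  rw [Finset.mul_sum]
  refine Finset.sum_congr rfl fun i hi => ?_
  rw [Finset.mem_range] at hi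
  have h1 : (C (μ ^ n) : k[X]) = C μ ^ i * C μ ^ (n - i) := by
    rw [← pow_add, ← C_pow]
    congr 2
    omega
  have h2 : ∀ s t : k, (C (μ * s) * X + C (μ * t) : k[X]) = C μ * (C s * X + C t) := by
    intro s t
    rw [C_mul, C_mul]
    ring
  rw [h1, h2, h2, mul_pow, mul_pow]
  ring

theorem b_inv {M : Type} [Field M] [NumberField M] {g k : ℕ}
    {I : MvPolynomial (Fin (2 * g + 2 + 1)) ℤ} (hI : IsInvariant g k I) {F : M[X]}
    (hF : F.natDegree ≤ 2 * g + 2) {a b c d l : M} (hdet : a * d - b * c ≠ 0) :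
    ev (2 * g + 2) I (C (l ^ 2) * act (2 * g + 2) a b c d F) =
      (l ^ 2 * (a * d - b * c) ^ (g + 1)) ^ k * ev (2 * g + 2) I F := by
  obtain ⟨s⟩ : Nonempty (M →+* ℂ) := inferInstance
  apply s.injective
  rw [← b_ev_map, Polynomial.map_mul, Polynomial.map_C, act_map, b_ev_smul hI.hom]
  obtain ⟨μ, hμ⟩ := IsAlgClosed.exists_pow_nat_eq (s (a * d - b * c)) (n := 2) (by norm_num)
  have hs : s (a * d - b * c) ≠ 0 := (map_ne_zero s).2 hdet
  have hμ0 : μ ≠ 0 := by
    rintro rfl
    apply hs
    rw [← hμ]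
    norm_num
  have e : ∀ t : M, s t = μ * (s t / μ) := fun t => by field_simp
  rw [e a, e b, e c, e d, b_act_scale, b_ev_smul hI.hom, hI.inv, b_ev_map]
  · simp only [map_mul, map_pow]
    rw [← hμ]
    ring
  · have h1 : s a * s d - s b * s c = μ ^ 2 := by
      rw [hμ, map_sub, map_mul, map_mul]
    field_simp
    exact h1
  · rw [natDegree_map]
    exact hF

theorem t_B : PartB := by
  intro M _ _ A g hg F F' hF hs hE
  obtain ⟨a, b, c, d, l, hdet, hl, rfl⟩ := hE
  have e : g + 1 + (g + 1) = 2 * g + 2 := by ring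
  refine ⟨l ^ 2 * (a * d - b * c) ^ (g + 1), mul_ne_zero (pow_ne_zero _ hl) (pow_ne_zero _ hdet),
    ?_, ?_⟩
  · have hid : F.map (algebraMap M M) = F := by
      rw [Algebra.algebraMap_self, Polynomial.map_id]
    obtain ⟨u, α, β, hu, -, hne, hfac⟩ := exists_factor_form (K := M) (M := M) A (h := g + 1)
      (by omega) (F := F) (by rcases hF.2 with h | h <;> omega) hF.1 (by rw [hid]; exact hs)
    rw [hid] at hfac
    have h1 := disc_sq_act (A := A) hu hne (by omega) hdet hl
    rw [← hfac, e] at h1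
    rw [e, h1]
    rw [map_mul, map_pow, map_pow]
    congr 2
    omega
  · intro k I hI
    rw [e]
    exact b_inv hI (by rcases hF.2 with h | h <;> omega) hdet

end Pool.Agent.N365.HY
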