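import Pool.Agent.N365.HY.Stm

/-!
# HY/C: absolute invariants are integral at the places of good reduction
-/

set_option autoImplicit false

namespace Pool.Agent.N365.HY

open Polynomial NumberField IsDedekindDomain WithZero
open Pool.Agent.W318

theorem c_ev_map {R S : Type*} [CommRing R] [CommRing S] (φ : R →+* S) (n : ℕ)
    (I : MvPolynomial (Fin (n + 1)) ℤ) (F : R[X]) : ev n I (F.map φ) = φ (ev n I F) := by
  unfold ev
  have h := MvPolynomial.comp_aeval_apply (R := ℤ) (S₁ := R) (B := S)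
    (f := fun i : Fin (n + 1) => F.coeff i) (φ := φ.toIntAlgHom) I
  rw [show φ ((MvPolynomial.aeval fun i : Fin (n + 1) => F.coeff i) I) =
    φ.toIntAlgHom ((MvPolynomial.aeval fun i : Fin (n + 1) => F.coeff i) I) from rfl, h]
  congr 2
  funext i
  rw [coeff_map]
  rfl

theorem c_val_ev {K : Type*} [Field K] [NumberField K] (v : HeightOneSpectrum (𝓞 K)) (n : ℕ)
    (I : MvPolynomial (Fin (n + 1)) ℤ) (F : K[X]) (hF : ∀ i, v.valuation K (F.coeff i) ≤ 1) :
    v.valuation K (ev n I F) ≤ 1 := by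
  let S : Subring K := (v.valuation K).integer
  have h := MvPolynomial.comp_aeval_apply (R := ℤ) (S₁ := S) (B := K)
    (f := fun i : Fin (n + 1) => (⟨F.coeff i, hF i⟩ : S)) (φ := S.subtype.toIntAlgHom) I
  have h2 : ev n I F = S.subtype ((MvPolynomial.aeval
      fun i : Fin (n + 1) => (⟨F.coeff i, hF i⟩ : S)) I) := by
    unfold ev
    rw [show S.subtype ((MvPolynomial.aeval fun i : Fin (n + 1) => (⟨F.coeff i, hF i⟩ : S)) I) =
      S.subtype.toIntAlgHom ((MvPolynomial.aeval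
        fun i : Fin (n + 1) => (⟨F.coeff i, hF i⟩ : S)) I) from rfl, h]
    rfl
  rw [h2]
  exact ((MvPolynomial.aeval fun i : Fin (n + 1) => (⟨F.coeff i, hF i⟩ : S)) I).2

theorem c_form {K : Type} [Field K] [NumberField K] {g : ℕ} (hg : 2 ≤ g) {P : K[X]}
    (hP : IsHyp g P) (v : HeightOneSpectrum (𝓞 K)) (h2 : v.valuation K (2 : K) = 1)
    (hm : minExp g P v = 0) :
    ∃ G : K[X], (∀ i, v.valuation K (G.coeff i) ≤ 1) ∧ Eqv (g + 1) P G ∧
      v.valuation K (discN (2 * g + 2) G) = 1 := by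
  obtain ⟨f, f₂, hM, hn⟩ := exists_min_model hP v
  obtain ⟨φ⟩ := hM.iso
  have hbr := bridge hg hP.1 hP.2 hM.upper φ
  have hgood := hbr.good (by omega) hP.good
  refine ⟨4 * f + f₂ ^ 2, int_comb v hM.int hM.int₂, hbr, ?_⟩
  have h4 : (1 / 4 : K) ≠ 0 := by norm_num
  have h5 : v.valuation K (1 / 4 : K) = 1 := by
    have : (1 / 4 : K) = (2 * 2)⁻¹ := by norm_num
    rw [this, map_inv₀, map_mul, h2, one_mul, inv_one]
  rw [hm, modelDisc_eq, four_mul_form, discN_C_mul (by omega) h4 hgood.2, map_mul, map_mul,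
    map_pow, map_pow, h2, h5, one_pow, one_pow, one_mul, one_mul] at hn
  rw [show 2 * g + 2 = g + 1 + (g + 1) by ring, hn]
  simp

theorem t_C (hA : PartA) (hB : PartB) : PartC := by
  intro K _ _ g hg k I hI P Q hP hQ hPQ v h2 hm
  obtain ⟨G, hGint, hGe, hGd⟩ := c_form hg hP v h2 hm
  obtain ⟨M, _, _, _, hsp, hPQM⟩ := hA K g hg P Q hP hQ hPQ
  obtain ⟨W, hW⟩ := exists_prime_over (M := M) v
  have hc : Compat (M := M) v W (v.asIdeal.ramificationIdx' W.asIdeal) := by
    refine ⟨ram_pos v W, fun x j hx => ?_⟩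
    rw [absW_exp W (absW_liesOver v W hx)]
    congr 1
    ring
  have hPM : IsHyp g (P.map (algebraMap K M)) := by
    have := hP.good.map (algebraMap K M)
    exact ⟨this.1, by have := this.2; omega⟩
  obtain ⟨r1, hr1, hd1, he1⟩ := hB M (absW W) g hg _ _ hPM hsp (hGe.map (algebraMap K M))
  obtain ⟨r2, hr2, hd2, he2⟩ := hB M (absW W) g hg _ _ hPM hsp hPQM
  have he1' := he1 k I hI
  have he2' := he2 k I hI
  rw [discN_map] at hd1 hd2
  rw [discN_map] at hd1 hd2
  rw [c_ev_map, c_ev_map] at he1' he2'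
  set φ := algebraMap K M with hφ
  set A := absW W with hAdef
  have hGd' : A (φ (discN (2 * g + 2) G)) = 1 := by
    rw [hAdef, absW_exp W (absW_liesOver (M := M) v W (k := 0) (by rw [hGd, exp_zero]))]
    simp
  have hGe' : A (φ (ev (2 * g + 2) I G)) ≤ 1 :=
    (hc.le_one_iff _).mpr (c_val_ev v _ I G hGint)
  -- the comparison
  have hr1p : 0 < A r1 := A.pos hr1
  have hr2p : 0 < A r2 := A.pos hr2
  have key : A (φ (ev (2 * g + 2) I Q)) ^ (4 * g + 2) ≤ A (φ (discN (2 * g + 2) Q)) ^ k := by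
    rw [hGd'] at hd1
    set D := A (φ (discN (2 * g + 2) P)) with hD
    set d := A (φ (discN (2 * g + 2) Q)) with hd
    rw [he1', map_mul, map_pow] at hGe'
    rw [he2', map_mul, map_pow, hd2]
    set E := A (φ (ev (2 * g + 2) I P)) with hE
    have hE0 : 0 ≤ E := A.nonneg _
    have h1 : (A r1 ^ k * E) ^ (4 * g + 2) ≤ 1 :=
      pow_le_one₀ (mul_nonneg (pow_nonneg hr1p.le _) hE0) hGe'
    have h3 : (A r1 ^ k * E) ^ (4 * g + 2) ≤ (A r1 ^ (4 * g + 2) * D) ^ k := by
      rw [← hd1, one_pow]; exact h1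
    have h4 : E ^ (4 * g + 2) ≤ D ^ k := by
      have h5 : (A r1 ^ k) ^ (4 * g + 2) * E ^ (4 * g + 2) ≤
          (A r1 ^ k) ^ (4 * g + 2) * D ^ k := by
        calc (A r1 ^ k) ^ (4 * g + 2) * E ^ (4 * g + 2) = (A r1 ^ k * E) ^ (4 * g + 2) := by
              rw [mul_pow]
          _ ≤ (A r1 ^ (4 * g + 2) * D) ^ k := h3
          _ = (A r1 ^ k) ^ (4 * g + 2) * D ^ k := by
              rw [mul_pow, ← pow_mul, ← pow_mul, mul_comm k]
      exact le_of_mul_le_mul_left h5 (by positivity)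
    calc (A r2 ^ k * E) ^ (4 * g + 2) = (A r2 ^ k) ^ (4 * g + 2) * E ^ (4 * g + 2) := by
          rw [mul_pow]
      _ ≤ (A r2 ^ k) ^ (4 * g + 2) * D ^ k := by
          exact mul_le_mul_of_nonneg_left h4 (by positivity)
      _ = (A r2 ^ (4 * g + 2) * D) ^ k := by
          rw [mul_pow, ← pow_mul, ← pow_mul, mul_comm k]
  rw [← map_pow, ← map_pow, ← map_pow, ← map_pow] at key
  have := (hc.le_iff _ _).mp key
  rwa [map_pow, map_pow] at this

end Pool.Agent.N365.HY
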