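import Pool.Agent.N365.HY.Stm

/-!
# Part D: the exponent of the minimal discriminant from an integral geometrically isomorphic curve
-/

set_option autoImplicit false

namespace Pool.Agent.N365.HY

open Polynomial NumberField IsDedekindDomain WithZero
open Pool.Agent.W318

theorem d_finrank_pos (K M : Type) [Field K] [NumberField K] [Field M] [NumberField M]
    [Algebra K M] : 0 < Module.finrank K M := by
  have : FiniteDimensional K M := FiniteDimensional.right ℚ K M
  exact Module.finrank_pos

theorem t_D (hA : PartA) : PartD := by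
  intro K _ _ g hg P Q hP hQ hiso v hint t k μ ht hk hμ
  obtain ⟨M, _, _, _, -, hE⟩ := hA K g hg P Q hP hQ hiso
  obtain ⟨T, hT, hsum⟩ := exists_over (L := M) v
  have hne : T.Nonempty := by
    by_contra h
    rw [Finset.not_nonempty_iff_eq_empty] at h
    rw [h, Finset.sum_empty] at hsum
    have := d_finrank_pos K M
    omega
  obtain ⟨w, hw⟩ := hne
  have hlies : w.asIdeal.LiesOver v.asIdeal := (hT w).mp hw
  have he1 := ram_pos v w
  obtain ⟨e, he⟩ : ∃ e : ℕ, e = v.asIdeal.ramificationIdx' w.asIdeal := ⟨_, rfl⟩
  rw [← he] at he1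
  have ht' : w.valuation M (2 : M) = exp (-((e * t : ℕ) : ℤ)) := by
    have := absW_liesOver v w ht
    rw [map_ofNat, ← he] at this
    rw [this]
    congr 1
    push_cast
    ring
  have h2g : 2 * g + 2 = g + 1 + (g + 1) := by ring
  have hk' : w.valuation M (discN (g + 1 + (g + 1)) (Q.map (algebraMap K M))) =
      exp (-((e * k : ℕ) : ℤ)) := by
    rw [h2g] at hk
    have := absW_liesOver v w hk
    rw [← he] at this
    rw [discN_map, this]
    congr 1
    push_cast
    ring
  have hint' : ∀ i, w.valuation M ((Q.map (algebraMap K M)).coeff i) ≤ 1 := by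
    intro i
    rw [coeff_map]
    by_cases h0 : Q.coeff i = 0
    · rw [h0, map_zero, map_zero]
      exact zero_le_one
    · obtain ⟨j, hj⟩ := exists_exp v h0
      have h1 := hint i
      rw [hj, ← exp_zero, exp_le_exp] at h1
      rw [absW_liesOver v w hj, ← he, ← exp_zero, exp_le_exp]
      exact mul_nonpos_of_nonneg_of_nonpos (by positivity) h1
  have hPM : IsHyp g (P.map (algebraMap K M)) := by
    have := hP.good.map (algebraMap K M)
    refine ⟨this.1, by have := this.2; omega⟩
  obtain ⟨k', hk'', -, hle⟩ := minExp_le hPM w hE hint' ht'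
  have hkk : k' = e * k := by
    rw [hk', exp_inj] at hk''
    omega
  have hloc := (local_minExp hg hP v w ht).1 μ hμ
  rw [← he] at hloc
  rw [hkk] at hle
  refine Nat.le_of_mul_le_mul_left ?_ he1
  calc e * minExp g P v ≤ minExp g (P.map (algebraMap K M)) w +
        e * (2 * (2 * g + 1) * (1 + (2 + μ) * (g + 1)) + (8 * g + 4) * t) := hloc
    _ ≤ (4 * g * (e * t) + e * k) +
        e * (2 * (2 * g + 1) * (1 + (2 + μ) * (g + 1)) + (8 * g + 4) * t) :=
        Nat.add_le_add_right hle _
    _ = e * (k + 4 * g * t +
        (2 * (2 * g + 1) * (1 + (2 + μ) * (g + 1)) + (8 * g + 4) * t)) := by ring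

end Pool.Agent.N365.HY
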