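import Pool.Agent.N365.HY.Stm

/-!
# Part (E): product of the local norms of an integer
-/

set_option autoImplicit false

namespace Pool.Agent.N365.HY

open Polynomial NumberField IsDedekindDomain WithZero
open Pool.Agent.W318

theorem e_dvd {K : Type} [Field K] [NumberField K] (m : ℤ) (v : HeightOneSpectrum (𝓞 K)) (k : ℕ)
    (h : v.valuation K (m : K) = exp (-(k : ℤ))) :
    v.asIdeal ^ k ∣ Ideal.span {(m : 𝓞 K)} := by
  rw [← HeightOneSpectrum.intValuation_le_pow_iff_dvd, ← HeightOneSpectrum.valuation_of_algebraMap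
    (K := K)]
  rw [← h]
  apply le_of_eq
  simp

theorem e_coprime {K : Type} [Field K] [NumberField K] {v w : HeightOneSpectrum (𝓞 K)}
    (h : v ≠ w) (a b : ℕ) : IsCoprime (v.asIdeal ^ a) (w.asIdeal ^ b) := by
  refine IsCoprime.pow ?_
  rw [Ideal.isCoprime_iff_sup_eq]
  exact Ideal.IsMaximal.coprime_of_ne v.isMaximal w.isMaximal
    (fun h' => h (HeightOneSpectrum.ext h'))

theorem t_E : PartE := by
  intro K _ _ m hm S k hS
  have h1 : ∏ v ∈ S, v.asIdeal ^ k v ∣ Ideal.span {(m : 𝓞 K)} := by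
    refine Finset.prod_dvd_of_coprime ?_ ?_
    · intro v _ w _ hvw
      exact e_coprime hvw _ _
    · intro v hv
      exact e_dvd m v (k v) (hS v hv)
  have h2 : Ideal.absNorm (∏ v ∈ S, v.asIdeal ^ k v) ∣ Ideal.absNorm (Ideal.span {(m : 𝓞 K)}) :=
    map_dvd Ideal.absNorm h1
  have h3 : Ideal.absNorm (Ideal.span {(m : 𝓞 K)}) = m.natAbs ^ Module.finrank ℚ K := by
    rw [Ideal.absNorm_span_singleton]
    have : (m : 𝓞 K) = algebraMap ℤ (𝓞 K) m := by simp
    rw [this, Algebra.norm_algebraMap, Int.natAbs_pow, RingOfIntegers.rank]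
  rw [map_prod] at h2
  simp only [map_pow] at h2
  rw [h3] at h2
  exact Nat.le_of_dvd (pow_pos (Int.natAbs_pos.2 hm) _) h2

end Pool.Agent.N365.HY
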