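import Pool.Agent.N365.HY.Stm

set_option autoImplicit false

namespace Pool.Agent.N365.HY

open Polynomial NumberField IsDedekindDomain WithZero
open Pool.Agent.W318

/-- two coprime integers do not both lie in a prime ideal -/
theorem f_not_coprime {K : Type} [Field K] [NumberField K] (v : HeightOneSpectrum (𝓞 K))
    {a b : ℕ} (ha : (a : 𝓞 K) ∈ v.asIdeal) (hb : (b : 𝓞 K) ∈ v.asIdeal) : ¬ Nat.Coprime a b := by
  intro h
  have h1 : IsCoprime (a : ℤ) (b : ℤ) := Nat.isCoprime_iff_coprime.mpr h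
  obtain ⟨x, y, hxy⟩ := h1
  apply v.isPrime.ne_top
  rw [Ideal.eq_top_iff_one]
  have h2 : (x : 𝓞 K) * (a : 𝓞 K) + (y : 𝓞 K) * (b : 𝓞 K) = 1 := by exact_mod_cast congrArg (Int.cast : ℤ → 𝓞 K) hxy
  rw [← h2]
  exact Ideal.add_mem _ (Ideal.mul_mem_left _ _ ha) (Ideal.mul_mem_left _ _ hb)

/-- a place over a prime number -/
theorem f_exists_place (K : Type) [Field K] [NumberField K] {p : ℕ} (hp : p.Prime) :
    ∃ v : HeightOneSpectrum (𝓞 K), (p : 𝓞 K) ∈ v.asIdeal := by
  have hp0 : (p : 𝓞 K) ≠ 0 := Nat.cast_ne_zero.mpr hp.ne_zero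
  have hnu : ¬ IsUnit (p : 𝓞 K) := by
    intro hu
    have h1 := hu.map (Algebra.norm ℤ)
    have h2 : (p : 𝓞 K) = algebraMap ℤ (𝓞 K) (p : ℤ) := by simp
    rw [h2, Algebra.norm_algebraMap, Int.isUnit_iff_natAbs_eq, Int.natAbs_pow, Int.natAbs_natCast]
      at h1
    have h3 : Module.finrank ℤ (𝓞 K) ≠ 0 := Module.finrank_pos.ne'
    rcases (Nat.pow_eq_one.mp h1) with h | h
    · exact hp.one_lt.ne' h
    · exact h3 h
  obtain ⟨I, hI, hpI⟩ := exists_max_ideal_of_mem_nonunits hnu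
  refine ⟨⟨I, hI.isPrime, ?_⟩, hpI⟩
  rintro rfl
  exact hp0 (by simpa using hpI)

theorem t_F : PartF := by
  classical
  intro K _ _ g P hP F hF
  have hex : ∀ p : ℕ, ∃ v : HeightOneSpectrum (𝓞 K), p.Prime → (p : 𝓞 K) ∈ v.asIdeal := by
    intro p
    by_cases hp : p.Prime
    · obtain ⟨v, hv⟩ := f_exists_place K hp
      exact ⟨v, fun _ => hv⟩
    · obtain ⟨v, hv⟩ := f_exists_place K Nat.prime_two
      exact ⟨v, fun h => absurd h hp⟩
  choose w hw using hex
  have hinj : Set.InjOn w (F : Set ℕ) := by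
    intro p hp q hq hpq
    by_contra hne
    have hpp := (hF p hp).1
    have hqp := (hF q hq).1
    have h1 := hw p hpp
    have h2 := hw q hqp
    rw [hpq] at h1
    exact f_not_coprime _ h1 h2 ((Nat.coprime_primes hpp hqp).mpr hne)
  have hle : ∀ p ∈ F, p ≤ Ideal.absNorm (w p).asIdeal := by
    intro p hp
    have hpp := (hF p hp).1
    have h1 : 1 ≤ Ideal.absNorm (w p).asIdeal := one_le_absNorm (w p)
    have h2 : ((Ideal.absNorm (w p).asIdeal : ℕ) : 𝓞 K) ∈ (w p).asIdeal := Ideal.absNorm_mem _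
    have h3 := f_not_coprime _ (hw p hpp) h2
    rw [Nat.Prime.coprime_iff_not_dvd hpp, not_not] at h3
    exact Nat.le_of_dvd (by omega) h3
  rw [badNorm_eq (finite_bad hP).toFinset (by intro v; simp)]
  calc ∏ p ∈ F, p ≤ ∏ p ∈ F, Ideal.absNorm (w p).asIdeal := Finset.prod_le_prod' hle
    _ = ∏ v ∈ F.image w, Ideal.absNorm v.asIdeal := by
        rw [Finset.prod_image hinj]
    _ ≤ ∏ v ∈ (finite_bad hP).toFinset, Ideal.absNorm v.asIdeal := by
        apply Finset.prod_le_prod_of_subset_of_one_le'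
        · intro v hv
          rw [Finset.mem_image] at hv
          obtain ⟨p, hp, rfl⟩ := hv
          rw [Set.Finite.mem_toFinset]
          apply (hF p hp).2
          have h1 := hw p (hF p hp).1
          rw [← HeightOneSpectrum.valuation_lt_one_iff_mem (K := K)] at h1
          simpa using h1
        · intro v _ _
          exact one_le_absNorm v

end Pool.Agent.N365.HY
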