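import Pool.Agent.N365.HY.Stm

/-!
# The size of the discriminant of an integral polynomial
-/

set_option autoImplicit false

namespace Pool.Agent.N365.HY

open Polynomial NumberField IsDedekindDomain WithZero
open Pool.Agent.W318

theorem g_entry {G : ℤ[X]} {n : ℕ} {M : ℝ} (hM : 1 ≤ M) (hn : G.natDegree ≤ n)
    (hG : ∀ i, |(G.coeff i : ℝ)| ≤ M) (i : ℕ) :
    |(G.derivative.coeff i : ℝ)| ≤ (n + 1) * M := by
  rw [coeff_derivative]
  push_cast
  rw [abs_mul]
  by_cases h : i + 1 ≤ G.natDegree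
  · have h1 : |((i : ℝ) + 1)| ≤ n + 1 := by
      rw [abs_of_nonneg (by positivity)]
      have : ((i + 1 : ℕ) : ℝ) ≤ n := by exact_mod_cast h.trans hn
      push_cast at this
      linarith
    have h2 := hG (i + 1)
    have h3 : (0 : ℝ) ≤ |(G.coeff (i + 1) : ℝ)| := abs_nonneg _
    have h4 : (0 : ℝ) ≤ (n : ℝ) + 1 := by positivity
    calc |(G.coeff (i + 1) : ℝ)| * |((i : ℝ) + 1)| ≤ M * (n + 1) := by gcongr
      _ = (n + 1) * M := by ring
  · rw [coeff_eq_zero_of_natDegree_lt (by omega)]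
    simp only [Int.cast_zero, abs_zero, zero_mul]
    positivity

theorem g_syl {G : ℤ[X]} {n : ℕ} {M : ℝ} (hM : 1 ≤ M) (hn : G.natDegree ≤ n)
    (hG : ∀ i, |(G.coeff i : ℝ)| ≤ M) (a b : ℕ) (i j : Fin (a + b)) :
    |((sylvester G G.derivative a b i j : ℤ) : ℝ)| ≤ (n + 1) * M := by
  have h0 : (0 : ℝ) ≤ (n + 1) * M := by positivity
  have h1 : M ≤ (n + 1) * M := by nlinarith [Nat.cast_nonneg (α := ℝ) n]
  rw [sylvester, Matrix.of_apply]
  refine Fin.addCases (fun j₁ => ?_) (fun j₁ => ?_) j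
  · rw [Fin.addCases_left]
    split_ifs
    · exact g_entry hM hn hG _
    · simpa using h0
  · rw [Fin.addCases_right]
    split_ifs
    · exact (hG _).trans h1
    · simpa using h0

theorem g_res {G : ℤ[X]} {n : ℕ} {M : ℝ} (hM : 1 ≤ M) (hn : G.natDegree ≤ n)
    (hG : ∀ i, |(G.coeff i : ℝ)| ≤ M) (a b : ℕ) (hab : a + b ≤ 2 * n) :
    |((resultant G G.derivative a b : ℤ) : ℝ)| ≤
      (((2 * n).factorial : ℝ) * (n + 1) ^ (2 * n)) * M ^ (2 * n) := by
  have h1 : ((resultant G G.derivative a b : ℤ) : ℝ) =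
      ((sylvester G G.derivative a b).map (Int.castRingHom ℝ)).det := by
    rw [resultant]
    exact (Int.castRingHom ℝ).map_det (sylvester G G.derivative a b)
  have h2 := Matrix.det_le (A := (sylvester G G.derivative a b).map (Int.castRingHom ℝ))
    (abv := AbsoluteValue.abs) (x := (n + 1) * M) (fun i j => by
      simpa using g_syl hM hn hG a b i j)
  rw [h1]
  rw [Fintype.card_fin, nsmul_eq_mul] at h2
  have h3 : (1 : ℝ) ≤ (n + 1) * M := by nlinarith [Nat.cast_nonneg (α := ℝ) n]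
  calc |((sylvester G G.derivative a b).map (Int.castRingHom ℝ)).det|
      ≤ ((a + b).factorial : ℝ) * ((n + 1) * M) ^ (a + b) := h2
    _ ≤ ((2 * n).factorial : ℝ) * ((n + 1) * M) ^ (2 * n) := by
        gcongr
    _ = _ := by rw [mul_pow]; ring

theorem g_discr {G : ℤ[X]} {n : ℕ} {M : ℝ} (hM : 1 ≤ M) (hG0 : G ≠ 0) (hn : G.natDegree ≤ n)
    (hG : ∀ i, |(G.coeff i : ℝ)| ≤ M) :
    |(G.discr : ℝ)| ≤ (((2 * n).factorial : ℝ) * (n + 1) ^ (2 * n)) * M ^ (2 * n) := by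
  have hc : (1 : ℝ) ≤ ((2 * n).factorial : ℝ) * (n + 1) ^ (2 * n) := by
    have h1 : (1 : ℝ) ≤ ((2 * n).factorial : ℝ) := by
      exact_mod_cast Nat.one_le_iff_ne_zero.mpr (Nat.factorial_ne_zero _)
    have h2 : (1 : ℝ) ≤ ((n : ℝ) + 1) ^ (2 * n) := one_le_pow₀ (by
      have := Nat.cast_nonneg (α := ℝ) n
      linarith)
    nlinarith
  by_cases h0 : G.natDegree = 0
  · rw [eq_C_of_natDegree_eq_zero h0, discr_C]
    have h2 : (1 : ℝ) ≤ M ^ (2 * n) := one_le_pow₀ hM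
    simp only [Int.cast_one, abs_one]
    nlinarith
  · have hpos : 0 < G.natDegree := Nat.pos_of_ne_zero h0
    have h1 := resultant_deriv (natDegree_pos_iff_degree_pos.mp hpos)
    have h2 := g_res hM hn hG G.natDegree (G.natDegree - 1) (by omega)
    refine le_trans ?_ h2
    rw [h1]
    push_cast
    rw [abs_mul, abs_mul, abs_pow, abs_neg, abs_one, one_pow, one_mul]
    have h3 : (1 : ℝ) ≤ |(G.leadingCoeff : ℝ)| := by
      have : (1 : ℤ) ≤ |G.leadingCoeff| := Int.one_le_abs (leadingCoeff_ne_zero.mpr hG0)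
      exact_mod_cast this
    nlinarith [abs_nonneg (G.discr : ℝ)]

theorem t_G : PartG := by
  intro n
  have hc : (1 : ℝ) ≤ ((2 * n).factorial : ℝ) * (n + 1) ^ (2 * n) := by
    have h1 : (1 : ℝ) ≤ ((2 * n).factorial : ℝ) := by
      exact_mod_cast Nat.one_le_iff_ne_zero.mpr (Nat.factorial_ne_zero _)
    have h2 : (1 : ℝ) ≤ ((n : ℝ) + 1) ^ (2 * n) := one_le_pow₀ (by
      have := Nat.cast_nonneg (α := ℝ) n
      linarith)
    nlinarith
  refine ⟨((2 * n).factorial : ℝ) * (n + 1) ^ (2 * n), hc, ?_⟩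
  intro G M hM hG0 hn hG
  have hd := g_discr hM hG0 hn hG
  have hinj : Function.Injective (Int.castRingHom ℚ) := Int.cast_injective
  have e1 : (G.map (Int.castRingHom ℚ)).discr = ((G.discr : ℤ) : ℚ) :=
    discr_map_of_injective (Int.castRingHom ℚ) hinj G
  have e2 : (G.map (Int.castRingHom ℚ)).leadingCoeff = ((G.leadingCoeff : ℤ) : ℚ) :=
    leadingCoeff_map_of_injective hinj G
  have hMn : (0 : ℝ) ≤ M ^ (2 * n) := by positivity
  have hM2 : (1 : ℝ) ≤ M ^ 2 := one_le_pow₀ hM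
  have hc0 : (0 : ℝ) ≤ ((2 * n).factorial : ℝ) * (n + 1) ^ (2 * n) * M ^ (2 * n) := by positivity
  have hfin : ((2 * n).factorial : ℝ) * (n + 1) ^ (2 * n) * M ^ (2 * n) * M ^ 2 =
    ((2 * n).factorial : ℝ) * (n + 1) ^ (2 * n) * M ^ (2 * n + 2) := by ring
  rw [discN, ← hfin]
  split_ifs with h
  · refine ⟨G.discr, e1, hd.trans ?_⟩
    nlinarith
  · refine ⟨G.leadingCoeff ^ 2 * G.discr, ?_, ?_⟩
    · rw [e1, e2]
      push_cast
      rfl
    · push_cast
      rw [abs_mul, abs_pow, mul_comm]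
      have h5 : |(G.leadingCoeff : ℝ)| ≤ M := hG _
      have h6 : |(G.leadingCoeff : ℝ)| ^ 2 ≤ M ^ 2 := by gcongr
      gcongr

end Pool.Agent.N365.HY
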