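import Pool.Agent.N365.HY.Stm

/-!
# Specialization of the generic member
-/

set_option autoImplicit false

namespace Pool.Agent.N365.HY

open Polynomial
open Pool.Agent.W318

theorem h_emb_inj : Function.Injective emb := by
  intro a b hab
  have h1 : (mapRingHom (Int.castRingHom ℚ)) a = (mapRingHom (Int.castRingHom ℚ)) b :=
    RatFunc.algebraMap_injective ℚ hab
  exact Polynomial.map_injective (Int.castRingHom ℚ) Int.cast_injective h1

theorem h_discr {R S : Type*} [CommRing R] [CommRing S] [IsDomain S] (f : R →+* S) (F : R[X])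
    (hlc : f F.leadingCoeff ≠ 0) : (F.map f).natDegree = F.natDegree ∧
      (F.map f).leadingCoeff = f F.leadingCoeff ∧ (F.map f).discr = f F.discr := by
  have hd : (F.map f).natDegree = F.natDegree := natDegree_map_of_leadingCoeff_ne_zero f hlc
  have hl : (F.map f).leadingCoeff = f F.leadingCoeff :=
    leadingCoeff_map_of_leadingCoeff_ne_zero f hlc
  refine ⟨hd, hl, ?_⟩
  by_cases h0 : F.natDegree = 0
  · rw [eq_C_of_natDegree_eq_zero h0, Polynomial.map_C, discr_C, discr_C, map_one]
  · have hpos : 0 < F.natDegree := Nat.pos_of_ne_zero h0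
    have h1 := resultant_deriv (natDegree_pos_iff_degree_pos.mp hpos)
    have h2 := resultant_deriv (f := F.map f)
      (natDegree_pos_iff_degree_pos.mp (by rw [hd]; exact hpos))
    rw [derivative_map, hd, resultant_map_map, h1, hl] at h2
    simp only [map_mul, map_pow, map_neg, map_one] at h2
    have hs : (-1 : S) ^ (F.natDegree * (F.natDegree - 1) / 2) * f F.leadingCoeff ≠ 0 :=
      mul_ne_zero (pow_ne_zero _ (by simp)) hlc
    exact (mul_left_cancel₀ hs h2).symm

/-- the discriminant of a form over a ring -/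
noncomputable def h_dN {R : Type*} [CommRing R] (n : ℕ) (F : R[X]) : R :=
  if F.natDegree = n then F.discr else F.leadingCoeff ^ 2 * F.discr

theorem h_discN {R S : Type*} [CommRing R] [Field S] (f : R →+* S) (n : ℕ) (F : R[X])
    (hlc : f F.leadingCoeff ≠ 0) : discN n (F.map f) = f (h_dN n F) := by
  obtain ⟨h1, h2, h3⟩ := h_discr f F hlc
  unfold discN h_dN
  rw [h1, h2, h3]
  split_ifs
  · rfl
  · rw [map_mul, map_pow]

theorem h_ev {R S : Type*} [CommRing R] [CommRing S] (f : R →+* S) (n : ℕ)
    (I : MvPolynomial (Fin (n + 1)) ℤ) (F : R[X]) : ev n I (F.map f) = f (ev n I F) := by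
  unfold ev
  rw [MvPolynomial.aeval_def, MvPolynomial.aeval_def, MvPolynomial.eval₂_comp_left]
  have h1 : f.comp (algebraMap ℤ R) = algebraMap ℤ S := Subsingleton.elim _ _
  have h2 : (f ∘ fun i : Fin (n + 1) => F.coeff i) = fun i : Fin (n + 1) => (F.map f).coeff i := by
    funext i
    rw [Function.comp_apply, Polynomial.coeff_map]
  rw [h1, h2]

theorem h_sqf {k : Type*} [Field k] [CharZero k] {F : k[X]} (hd : 0 < F.natDegree)
    (h : F.discr ≠ 0) : Squarefree F := by
  have hF0 : F ≠ 0 := by
    rintro rfl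
    simp at hd
  have h1 := resultant_deriv (natDegree_pos_iff_degree_pos.mp hd)
  have h3 : F.derivative.natDegree = F.natDegree - 1 := by
    have := degree_derivative (p := F) hd.ne'
    exact natDegree_eq_of_degree_eq_some this
  have h2 : resultant F F.derivative ≠ 0 := by
    rw [h3, h1]
    exact mul_ne_zero (mul_ne_zero (pow_ne_zero _ (by simp)) (leadingCoeff_ne_zero.mpr hF0)) h
  have h4 : IsCoprime F F.derivative := by
    by_contra h5
    exact h2 (resultant_eq_zero_iff.mpr ⟨Or.inl hF0, h5⟩)
  exact Polynomial.Separable.squarefree h4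

theorem t_H : PartH := by
  intro g F hF k I A D hAD
  have hinj := h_emb_inj
  have hcz : CharZero (RatFunc ℚ) := charZero_of_injective_algebraMap
    (algebraMap ℚ (RatFunc ℚ)).injective
  have hg0 : gen F ≠ 0 := hF.1.ne_zero
  have hF0 : F ≠ 0 := by
    rintro rfl
    exact hg0 (by unfold gen; rw [Polynomial.map_zero])
  have hlc : F.leadingCoeff ≠ 0 := leadingCoeff_ne_zero.mpr hF0
  have hlce : emb F.leadingCoeff ≠ 0 := by
    intro h
    rw [← map_zero emb] at h
    exact hlc (hinj h)
  obtain ⟨d1, d2, d3⟩ := h_discr emb F hlce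
  have hdeg : F.natDegree = 2 * g + 1 ∨ F.natDegree = 2 * g + 2 := by
    rw [← d1]
    exact hF.2
  have hdisc : F.discr ≠ 0 := by
    have h1 : (gen F).discr ≠ 0 := discr_ne_zero hF.1 (by
      have : (gen F).natDegree = F.natDegree := d1
      rw [this]
      omega)
    intro h
    apply h1
    have h2 : (gen F).discr = emb F.discr := d3
    rw [h2, h, map_zero]
  have hrel : A * h_dN (2 * g + 2) F ^ k = D * ev (2 * g + 2) I F ^ (4 * g + 2) := by
    apply hinj
    rw [map_mul, map_mul, map_pow, map_pow, ← h_discN emb _ F hlce, ← h_ev]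
    exact hAD
  have hP : (F.leadingCoeff * F.discr).map (Int.castRingHom ℚ) ≠ 0 := by
    intro h
    have h1 := (Polynomial.map_eq_zero_iff (f := Int.castRingHom ℚ) Int.cast_injective).1 h
    exact mul_ne_zero hlc hdisc h1
  classical
  refine ⟨((F.leadingCoeff * F.discr).map (Int.castRingHom ℚ)).roots.toFinset, fun t ht => ?_⟩
  rw [Multiset.mem_toFinset, mem_roots hP, IsRoot.def, eval_map] at ht
  have h1 : (eval₂RingHom (Int.castRingHom ℚ) t) (F.leadingCoeff * F.discr) ≠ 0 := ht
  rw [map_mul] at h1
  have hl := left_ne_zero_of_mul h1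
  have hdd := right_ne_zero_of_mul h1
  obtain ⟨c1, c2, c3⟩ := h_discr (eval₂RingHom (Int.castRingHom ℚ) t) F hl
  refine ⟨⟨?_, ?_⟩, ?_⟩
  · refine h_sqf ?_ ?_
    · have : (mem F t).natDegree = F.natDegree := c1
      rw [this]
      omega
    · have : (mem F t).discr = (eval₂RingHom (Int.castRingHom ℚ) t) F.discr := c3
      rw [this]
      exact hdd
  · have : (mem F t).natDegree = F.natDegree := c1
    rw [this]
    exact hdeg
  · have h2 := congrArg (eval₂RingHom (Int.castRingHom ℚ) t) hrel
    rw [map_mul, map_mul, map_pow, map_pow, ← h_discN _ _ F hl, ← h_ev] at h2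
    exact h2

end Pool.Agent.N365.HY
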