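import Pool.Agent.W318.GlobalSzp

/-!
# Szpiro's inequality for the geometric forms of the members of a family of hyperelliptic curves

Definitions and the statements of the parts.
-/

set_option autoImplicit false

namespace Pool.Agent.N365.HY

open Polynomial NumberField IsDedekindDomain WithZero
open Pool.Agent.W318

/-- the value of a polynomial in the coefficients `a_0, …, a_n` of a form of degree `n` -/
noncomputable def ev {R : Type*} [CommRing R] (n : ℕ) (I : MvPolynomial (Fin (n + 1)) ℤ)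
    (F : R[X]) : R :=
  MvPolynomial.aeval (fun i : Fin (n + 1) => F.coeff i) I

/-- `I` is an invariant of degree `k`, with integral coefficients, of the binary forms of degree
`2 g + 2` -/
structure IsInvariant (g k : ℕ) (I : MvPolynomial (Fin (2 * g + 2 + 1)) ℤ) : Prop where
  hom : I.IsHomogeneous k
  inv : ∀ (a b c d : ℂ) (F : ℂ[X]), a * d - b * c = 1 → F.natDegree ≤ 2 * g + 2 →
    ev (2 * g + 2) I (act (2 * g + 2) a b c d F) = ev (2 * g + 2) I F

/-- `y² = P` and `y² = Q` are isomorphic over the algebraic closure -/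
def GeomIso {K : Type} [Field K] (P Q : K[X]) : Prop :=
  Nonempty (FunField (AlgebraicClosure K) (P.map (algebraMap K (AlgebraicClosure K))) 0
    ≃ₐ[AlgebraicClosure K]
    FunField (AlgebraicClosure K) (Q.map (algebraMap K (AlgebraicClosure K))) 0)

/-- the member at `t` of the family `F`, a polynomial in `X` with coefficients in `ℤ[T]` -/
noncomputable def mem (F : ℤ[X][X]) (t : ℚ) : ℚ[X] :=
  F.map (eval₂RingHom (Int.castRingHom ℚ) t)

/-- the embedding of `ℤ[T]` in `ℚ(T)` -/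
noncomputable def emb : ℤ[X] →+* RatFunc ℚ :=
  (algebraMap ℚ[X] (RatFunc ℚ)).comp (mapRingHom (Int.castRingHom ℚ))

/-- the generic member of the family -/
noncomputable def gen (F : ℤ[X][X]) : (RatFunc ℚ)[X] := F.map emb

/-- (A) a number field over which the two curves are isomorphic and the first form splits -/
def PartA : Prop := ∀ (K : Type) [Field K] [NumberField K] (g : ℕ), 2 ≤ g → ∀ P Q : K[X],
  IsHyp g P → IsHyp g Q → GeomIso P Q →
  ∃ (M : Type) (_ : Field M) (_ : NumberField M) (_ : Algebra K M),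
    (P.map (algebraMap K M)).Splits ∧
    Eqv (g + 1) (P.map (algebraMap K M)) (Q.map (algebraMap K M))

/-- (B) invariants and discriminants of equivalent forms -/
def PartB : Prop := ∀ (M : Type) [Field M] [NumberField M] (A : AbsoluteValue M ℝ) (g : ℕ),
  2 ≤ g → ∀ F F' : M[X], IsHyp g F → F.Splits → Eqv (g + 1) F F' →
  ∃ r : M, r ≠ 0 ∧ A (discN (2 * g + 2) F') = A r ^ (4 * g + 2) * A (discN (2 * g + 2) F) ∧
    ∀ (k : ℕ) (I : MvPolynomial (Fin (2 * g + 2 + 1)) ℤ), IsInvariant g k I →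
      ev (2 * g + 2) I F' = r ^ k * ev (2 * g + 2) I F

/-- (C) at a place of good reduction prime to `2` the absolute invariants of all forms of the curve
are integral -/
def PartC : Prop := ∀ (K : Type) [Field K] [NumberField K] (g : ℕ), 2 ≤ g →
  ∀ (k : ℕ) (I : MvPolynomial (Fin (2 * g + 2 + 1)) ℤ), IsInvariant g k I → ∀ P Q : K[X],
  IsHyp g P → IsHyp g Q → GeomIso P Q → ∀ v : HeightOneSpectrum (𝓞 K),
  v.valuation K (2 : K) = 1 → minExp g P v = 0 →
    v.valuation K (ev (2 * g + 2) I Q) ^ (4 * g + 2) ≤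
      v.valuation K (discN (2 * g + 2) Q) ^ k

/-- (D) the exponent of the minimal discriminant from an integral geometrically isomorphic curve -/
def PartD : Prop := ∀ (K : Type) [Field K] [NumberField K] (g : ℕ), 2 ≤ g → ∀ P Q : K[X],
  IsHyp g P → IsHyp g Q → GeomIso P Q → ∀ v : HeightOneSpectrum (𝓞 K),
  (∀ i, v.valuation K (Q.coeff i) ≤ 1) → ∀ t k μ : ℕ, v.valuation K (2 : K) = exp (-(t : ℤ)) →
  v.valuation K (discN (2 * g + 2) Q) = exp (-(k : ℤ)) →
  (∀ m : ℕ, 1 ≤ m → m ≤ 2 * g + 2 → exp (-(μ : ℤ)) ≤ v.valuation K (m : K)) →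
    minExp g P v ≤ k + 4 * g * t +
      (2 * (2 * g + 1) * (1 + (2 + μ) * (g + 1)) + (8 * g + 4) * t)

/-- (E) the norm of an integer -/
def PartE : Prop := ∀ (K : Type) [Field K] [NumberField K] (m : ℤ), m ≠ 0 →
  ∀ (S : Finset (HeightOneSpectrum (𝓞 K))) (k : HeightOneSpectrum (𝓞 K) → ℕ),
  (∀ v ∈ S, v.valuation K (m : K) = exp (-(k v : ℤ))) →
    ∏ v ∈ S, Ideal.absNorm v.asIdeal ^ k v ≤ m.natAbs ^ Module.finrank ℚ K

/-- (F) a lower bound for `M_C` -/
def PartF : Prop := ∀ (K : Type) [Field K] [NumberField K] (g : ℕ) (P : K[X]), IsHyp g P →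
  ∀ F : Finset ℕ, (∀ p ∈ F, p.Prime ∧ ∀ v : HeightOneSpectrum (𝓞 K),
    v.valuation K (p : K) < 1 → minExp g P v ≠ 0) → ∏ p ∈ F, p ≤ badNorm g P

/-- (G) the size of the discriminant -/
def PartG : Prop := ∀ n : ℕ, ∃ c : ℝ, 1 ≤ c ∧ ∀ (G : ℤ[X]) (M : ℝ), 1 ≤ M → G ≠ 0 →
  G.natDegree ≤ n → (∀ i, |(G.coeff i : ℝ)| ≤ M) →
  ∃ D : ℤ, discN n (G.map (Int.castRingHom ℚ)) = D ∧ |(D : ℝ)| ≤ c * M ^ (2 * n + 2)

/-- (H) specialization -/
def PartH : Prop := ∀ (g : ℕ) (F : ℤ[X][X]), IsHyp g (gen F) →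
  ∀ (k : ℕ) (I : MvPolynomial (Fin (2 * g + 2 + 1)) ℤ) (A D : ℤ[X]),
  emb A * discN (2 * g + 2) (gen F) ^ k = emb D * ev (2 * g + 2) I (gen F) ^ (4 * g + 2) →
  ∃ Z : Finset ℚ, ∀ t ∉ Z, IsHyp g (mem F t) ∧
    eval₂ (Int.castRingHom ℚ) t A * discN (2 * g + 2) (mem F t) ^ k =
      eval₂ (Int.castRingHom ℚ) t D * ev (2 * g + 2) I (mem F t) ^ (4 * g + 2)

end Pool.Agent.N365.HY
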