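import Pool.Agent.N365.LS.F6
import Pool.Agent.N365.HY.Stm

/-!
# Many primes are poles of a rational function at almost all arguments
-/

set_option autoImplicit false

namespace Pool.Agent.N365.HY

open Finset Polynomial
open Pool.Agent.N365.SZ (Box mem_Box card_Box)
open Pool.Agent.Y670.RD (fv fv_le toQ)
open Pool.Agent.Y679.Md (rS rS_pos)
open Pool.Agent.N365.LS

/-- many primes divide `y` and not `x` -/
def Many (η : ℝ) (B : ℕ) (x y : ℤ) : Prop :=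
  y ≠ 0 ∧ ∃ F : Finset ℕ, (∀ p ∈ F, p.Prime ∧ (p : ℤ) ∣ y ∧ ¬ (p : ℤ) ∣ x) ∧
    (B : ℝ) ^ η ≤ ((∏ p ∈ F, p : ℕ) : ℝ)

theorem many_of {S : Finset ℕ} {η : ℝ} {x y v : ℤ} {B : ℕ} (hy : y ≠ 0)
    (hp : ∀ p : ℕ, p.Prime → p ∉ S → (p : ℤ) ∣ v → (p : ℤ) ∣ y ∧ ¬ (p : ℤ) ∣ x)
    (hbig : (B : ℝ) ^ η < (rS S v.natAbs : ℝ)) : Many η B x y := by
  refine ⟨hy, v.natAbs.primeFactors \ S, fun p hpF => ?_, ?_⟩
  · rw [Finset.mem_sdiff, Nat.mem_primeFactors] at hpF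
    exact ⟨hpF.1.1, hp p hpF.1.1 hpF.2 (by rw [Int.natCast_dvd]; exact hpF.1.2.1)⟩
  · exact hbig.le

theorem many_rat {N : ℕ} {A D : ℤ[X]} (h : Rat N A D) (ε : ℝ) (hε : 0 < ε) :
    ∃ C : ℝ, 0 < C ∧ ∀ B : ℕ, 1 ≤ B → ∃ E : Finset (ℤ × ℤ),
      (E.card : ℝ) ≤ C * (B : ℝ) ^ (if 2 ≤ poleCount N D then ε else 1 + ε) ∧
      ∀ P ∈ Box B, P ∉ E → Many (ε / 8) B (fv N A P.1 P.2) (fv N D P.1 P.2) := by
  classical
  obtain ⟨M, G, S, hSF, hG0, hGM, hS, hM1, hpc, -, hdata⟩ := h.form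
  obtain ⟨Z, hZ⟩ := zeros_fin hG0 hGM
  obtain ⟨ex, hex⟩ : ∃ ex : ℝ, ex = if 2 ≤ poleCount N D then ε else 1 + ε := ⟨_, rfl⟩
  have hex0 : 0 ≤ ex := by rw [hex]; split_ifs <;> linarith
  have hcount : ∃ C : ℝ, 0 < C ∧ ∀ B : ℕ, 1 ≤ B →
      ((Sm M G S (ε / 8) B).card : ℝ) ≤ C * (B : ℝ) ^ ex := by
    rcases Nat.lt_or_ge M 2 with hM2 | hM2
    · have hM' : M = 1 := by omega
      subst hM'
      obtain ⟨C, hC, hc⟩ := lin_card hG0 hGM hS ε hε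
      refine ⟨C, hC, fun B hB => ?_⟩
      rw [hex, if_neg (by omega)]
      exact hc B hB
    · obtain ⟨C, hC, hc⟩ := hSF.small_card hM2 hS ε hε
      refine ⟨C, hC, fun B hB => (hc B hB).trans ?_⟩
      refine mul_le_mul_of_nonneg_left ?_ hC.le
      refine Real.rpow_le_rpow_of_exponent_le (by exact_mod_cast hB) ?_
      rw [hex]
      split_ifs <;> linarith
  obtain ⟨C, hC, hcount⟩ := hcount
  rw [← hex]
  refine ⟨C + Z.card, by positivity, fun B hB => ?_⟩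
  have hB1 : (1 : ℝ) ≤ B := by exact_mod_cast hB
  have hpw : 1 ≤ (B : ℝ) ^ ex := Real.one_le_rpow hB1 hex0
  have hZ0 : (0 : ℝ) ≤ Z.card := Nat.cast_nonneg _
  refine ⟨Sm M G S (ε / 8) B ∪ Z, ?_, fun P hP hPE => ?_⟩
  · have h1 : ((Sm M G S (ε / 8) B ∪ Z).card : ℝ) ≤ (Sm M G S (ε / 8) B).card + Z.card := by
      exact_mod_cast card_union_le _ _
    have h2 : (Z.card : ℝ) ≤ Z.card * (B : ℝ) ^ ex := le_mul_of_one_le_right hZ0 hpw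
    have h4 := hcount B hB
    have e : (C + Z.card) * (B : ℝ) ^ ex = C * (B : ℝ) ^ ex + Z.card * (B : ℝ) ^ ex := by ring
    rw [e]
    linarith
  · rw [mem_union, not_or] at hPE
    have hcop := (mem_Box.mp hP).2
    have hv : fv M G P.1 P.2 ≠ 0 := fun h0 => hPE.2 (hZ P hcop h0)
    obtain ⟨k1, k2⟩ := hdata P.1 P.2 hcop hv
    have hbig : (B : ℝ) ^ (ε / 8) < (rS S (fv M G P.1 P.2).natAbs : ℝ) := by
      by_contra hcon
      push Not at hcon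
      exact hPE.1 (mem_Sm.mpr ⟨hP, hv, hcon⟩)
    exact many_of k1 k2 hbig

/-- all but few integers, when the function is not a polynomial -/
theorem many_int {N : ℕ} {A D : ℤ[X]} (h : Rat N A D) (hD : 1 ≤ D.natDegree) (ε : ℝ)
    (hε : 0 < ε) :
    ∃ C : ℝ, 0 < C ∧ ∀ B : ℕ, 1 ≤ B → ∃ E : Finset ℤ, (E.card : ℝ) ≤ C * (B : ℝ) ^ ε ∧
      ∀ t : ℤ, |t| ≤ (B : ℤ) → t ∉ E → Many (ε / 8) B (A.eval t) (D.eval t) := by
  classical
  obtain ⟨M, G, S, hSF, hG0, hGM, hS, hM1, hpc, hGD, hdata⟩ := h.form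
  obtain ⟨C, hC, hcount⟩ := int_card (hGD hD) hS ε hε
  obtain ⟨Z, hZ⟩ : ∃ Z : Finset ℤ, Z = G.roots.toFinset := ⟨_, rfl⟩
  refine ⟨C + Z.card, by positivity, fun B hB => ?_⟩
  have hB1 : (1 : ℝ) ≤ B := by exact_mod_cast hB
  have hpw : 1 ≤ (B : ℝ) ^ ε := Real.one_le_rpow hB1 hε.le
  have hZ0 : (0 : ℝ) ≤ Z.card := Nat.cast_nonneg _
  refine ⟨SmI G S (ε / 8) B ∪ Z, ?_, fun t ht htE => ?_⟩
  · have h1 : ((SmI G S (ε / 8) B ∪ Z).card : ℝ) ≤ (SmI G S (ε / 8) B).card + Z.card := by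
      exact_mod_cast card_union_le _ _
    have h2 : (Z.card : ℝ) ≤ Z.card * (B : ℝ) ^ ε := le_mul_of_one_le_right hZ0 hpw
    have h4 := hcount B hB
    have e : (C + Z.card) * (B : ℝ) ^ ε = C * (B : ℝ) ^ ε + Z.card * (B : ℝ) ^ ε := by ring
    rw [e]
    linarith
  · rw [mem_union, not_or, hZ, Multiset.mem_toFinset, mem_roots hG0] at htE
    have hv : fv M G t 1 ≠ 0 := by
      rw [fv_int M hGM]
      exact htE.2
    obtain ⟨k1, k2⟩ := hdata t 1 isCoprime_one_right hv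
    have hbig : (B : ℝ) ^ (ε / 8) < (rS S (fv M G t 1).natAbs : ℝ) := by
      rw [fv_int M hGM]
      by_contra hcon
      push Not at hcon
      exact htE.1 (mem_SmI.mpr ⟨ht, htE.2, hcon⟩)
    have h5 := many_of (η := ε / 8) (B := B) k1 k2 hbig
    rwa [fv_int N h.degA, fv_int N h.degD] at h5

end Pool.Agent.N365.HY
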