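import Pool.Agent.N365.HY.Stm

/-!
# Upper bound for the minimal discriminant of a geometric form of an integral curve
-/

set_option autoImplicit false

namespace Pool.Agent.N365.HY

open Polynomial NumberField IsDedekindDomain WithZero
open Pool.Agent.W318

section

variable {K : Type} [Field K] [NumberField K]

theorem two_le_absNorm (v : HeightOneSpectrum (𝓞 K)) : 2 ≤ Ideal.absNorm v.asIdeal := by
  have h1 := one_le_absNorm v
  have h2 : Ideal.absNorm v.asIdeal ≠ 1 := by
    rw [Ne, Ideal.absNorm_eq_one_iff]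
    exact v.isPrime.ne_top
  omega

/-- the valuation of a non-zero integer -/
theorem exists_int_exp (v : HeightOneSpectrum (𝓞 K)) {m : ℤ} (hm : m ≠ 0) :
    ∃ k : ℕ, v.valuation K (m : K) = exp (-(k : ℤ)) := by
  obtain ⟨k, hk⟩ := exists_exp v (by exact_mod_cast hm : (m : K) ≠ 0)
  have h1 : v.valuation K (m : K) ≤ 1 := by
    have e : algebraMap (𝓞 K) K (m : 𝓞 K) = (m : K) := map_intCast _ m
    rw [← e]
    exact v.valuation_le_one _
  rw [hk, ← exp_zero, exp_le_exp] at h1
  exact ⟨(-k).toNat, by rw [hk, Int.toNat_of_nonneg (by omega), neg_neg]⟩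

theorem exp_le_of_E (hE : PartE) {d : ℕ} (hd : Module.finrank ℚ K ≤ d)
    (v : HeightOneSpectrum (𝓞 K)) {m k : ℕ} (hm : 1 ≤ m)
    (hk : v.valuation K (m : K) = exp (-(k : ℤ))) : k ≤ m * d := by
  have h1 := hE K (m : ℤ) (by exact_mod_cast (by omega : m ≠ 0)) {v} (fun _ => k) (by
    intro w hw
    rw [Finset.mem_singleton] at hw
    subst hw
    simpa using hk)
  rw [Finset.prod_singleton, Int.natAbs_natCast] at h1
  have h2 : 2 ^ k ≤ Ideal.absNorm v.asIdeal ^ k := Nat.pow_le_pow_left (two_le_absNorm v) k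
  have h3 : m ^ Module.finrank ℚ K ≤ (2 ^ m) ^ d :=
    (Nat.pow_le_pow_left (Nat.lt_two_pow_self (n := m)).le _).trans
      (Nat.pow_le_pow_right (Nat.pow_pos (by norm_num)) hd)
  rw [← pow_mul] at h3
  exact (Nat.pow_le_pow_iff_right (by norm_num)).mp (h2.trans (h1.trans h3))

/-- the constant -/
def beta (g d : ℕ) : ℕ :=
  4 * g * (2 * d) + (2 * (2 * g + 1) * (1 + (2 + (2 * g + 2) * d) * (g + 1)) +
    (8 * g + 4) * (2 * d))

theorem discNorm_le_of (hD : PartD) (hE : PartE) (g d : ℕ) (hg : 2 ≤ g)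
    (hd : Module.finrank ℚ K ≤ d) (P : K[X]) (G : ℤ[X]) (hP : IsHyp g P)
    (hG : IsHyp g (G.map (Int.castRingHom K))) (hiso : GeomIso P (G.map (Int.castRingHom K)))
    (m : ℤ) (hm : discN (2 * g + 2) (G.map (Int.castRingHom ℚ)) = m) :
    discNorm g P ≤ m.natAbs ^ d * badNorm g P ^ beta g d := by
  classical
  have hmap : G.map (Int.castRingHom K) =
      (G.map (Int.castRingHom ℚ)).map (algebraMap ℚ K) := by
    rw [Polynomial.map_map]
    congr 1
    exact RingHom.ext_int _ _
  have hmK : discN (2 * g + 2) (G.map (Int.castRingHom K)) = (m : K) := by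
    rw [hmap, discN_map, hm, map_intCast]
  have hm0 : m ≠ 0 := by
    rintro rfl
    have h1 := discN_ne_zero (by omega) hG.good
    rw [show g + 1 + (g + 1) = 2 * g + 2 by ring, hmK] at h1
    exact h1 (by simp)
  choose k hk using fun v : HeightOneSpectrum (𝓞 K) => exists_int_exp v hm0
  have hkey : ∀ v, minExp g P v ≤ k v + beta g d := by
    intro v
    obtain ⟨t, ht⟩ := exists_two_exp v
    have ht' : t ≤ 2 * d := exp_le_of_E hE hd v (m := 2) (by norm_num) (by exact_mod_cast ht)
    have h1 := hD K g hg P _ hP hG hiso v (fun i => by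
      rw [coeff_map, eq_intCast]
      have e : algebraMap (𝓞 K) K (G.coeff i : 𝓞 K) = (G.coeff i : K) := map_intCast _ _
      rw [← e]
      exact v.valuation_le_one _) t (k v) ((2 * g + 2) * d) ht (by rw [hmK, hk v]) (by
      intro j hj1 hj2
      obtain ⟨i, hi⟩ := exists_int_exp (K := K) v (m := (j : ℤ)) (by
        exact_mod_cast (by omega : j ≠ 0))
      have hi' : v.valuation K (j : K) = exp (-(i : ℤ)) := by
        rw [← hi]; norm_num
      rw [hi', exp_le_exp, neg_le_neg_iff]
      have h2 := exp_le_of_E hE hd v hj1 hi'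
      exact_mod_cast h2.trans (Nat.mul_le_mul_right d hj2))
    refine h1.trans ?_
    unfold beta
    have e1 : 4 * g * t ≤ 4 * g * (2 * d) := Nat.mul_le_mul_left _ ht'
    have e2 : (8 * g + 4) * t ≤ (8 * g + 4) * (2 * d) := Nat.mul_le_mul_left _ ht'
    omega
  have hB := finite_bad hP
  have hBmem : ∀ v, v ∈ hB.toFinset ↔ minExp g P v ≠ 0 := fun v => by simp
  rw [discNorm_eq hB.toFinset (fun v hv => (hBmem v).mpr hv), badNorm_eq hB.toFinset hBmem]
  calc ∏ v ∈ hB.toFinset, Ideal.absNorm v.asIdeal ^ minExp g P v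
      ≤ ∏ v ∈ hB.toFinset, Ideal.absNorm v.asIdeal ^ (k v + beta g d) :=
        Finset.prod_le_prod' fun v _ => Nat.pow_le_pow_right (one_le_absNorm v) (hkey v)
    _ = (∏ v ∈ hB.toFinset, Ideal.absNorm v.asIdeal ^ k v) *
          (∏ v ∈ hB.toFinset, Ideal.absNorm v.asIdeal) ^ beta g d := by
        rw [← Finset.prod_pow, ← Finset.prod_mul_distrib]
        exact Finset.prod_congr rfl fun v _ => pow_add _ _ _
    _ ≤ m.natAbs ^ d * (∏ v ∈ hB.toFinset, Ideal.absNorm v.asIdeal) ^ beta g d := by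
        refine Nat.mul_le_mul_right _ ((hE K m hm0 _ k fun v _ => hk v).trans ?_)
        exact Nat.pow_le_pow_right (Int.natAbs_pos.mpr hm0) hd

/-- the primes at which an absolute invariant is not integral are bad -/
theorem prod_le_badNorm (hC : PartC) (hF : PartF) {g : ℕ} (hg : 2 ≤ g) {k : ℕ}
    {I : MvPolynomial (Fin (2 * g + 2 + 1)) ℤ} (hI : IsInvariant g k I) {Q : ℚ[X]}
    (hQ : IsHyp g Q) {x y : ℤ}
    (hxy : (x : ℚ) * discN (2 * g + 2) Q ^ k = y * ev (2 * g + 2) I Q ^ (4 * g + 2))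
    {S : Finset ℕ} (hS : ∀ p ∈ S, p.Prime ∧ (p : ℤ) ∣ y ∧ ¬ (p : ℤ) ∣ x) {P : K[X]}
    (hP : IsHyp g P) (hiso : GeomIso P (Q.map (algebraMap ℚ K))) :
    ∏ p ∈ S, p ≤ 2 * badNorm g P := by
  classical
  have hQK : IsHyp g (Q.map (algebraMap ℚ K)) := by
    have := hQ.good.map (algebraMap ℚ K)
    refine ⟨this.1, by have := this.2; omega⟩
  have hev : ev (2 * g + 2) I (Q.map (algebraMap ℚ K)) =
      algebraMap ℚ K (ev (2 * g + 2) I Q) := by
    unfold ev
    rw [MvPolynomial.aeval_def, MvPolynomial.aeval_def, MvPolynomial.hom_eval₂]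
    congr 1
    · exact RingHom.ext_int _ _
    · funext i
      rw [coeff_map]
  have hdi : discN (2 * g + 2) (Q.map (algebraMap ℚ K)) =
      algebraMap ℚ K (discN (2 * g + 2) Q) := discN_map _ _ _
  have hxyK : (x : K) * discN (2 * g + 2) (Q.map (algebraMap ℚ K)) ^ k =
      y * ev (2 * g + 2) I (Q.map (algebraMap ℚ K)) ^ (4 * g + 2) := by
    have h1 := congrArg (algebraMap ℚ K) hxy
    rw [map_mul, map_mul, map_pow, map_pow, map_intCast, map_intCast] at h1
    rw [hev, hdi]
    exact h1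
  have hd0 : discN (2 * g + 2) (Q.map (algebraMap ℚ K)) ≠ 0 := by
    have h1 := discN_ne_zero (by omega) hQK.good
    rwa [show g + 1 + (g + 1) = 2 * g + 2 by ring] at h1
  have hcop : ∀ (v : HeightOneSpectrum (𝓞 K)) (p : ℕ) (z : ℤ), v.valuation K (p : K) < 1 →
      p.Prime → ¬ (p : ℤ) ∣ z → v.valuation K (z : K) = 1 := by
    intro v p z hvp hp hz
    have hle : ∀ w : ℤ, v.valuation K (w : K) ≤ 1 := by
      intro w
      have e : algebraMap (𝓞 K) K (w : 𝓞 K) = (w : K) := map_intCast _ _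
      rw [← e]
      exact v.valuation_le_one _
    by_contra hne
    have hlt : v.valuation K (z : K) < 1 := lt_of_le_of_ne (hle z) hne
    have hc : IsCoprime (p : ℤ) z := (Nat.prime_iff_prime_int.mp hp).coprime_iff_not_dvd.mpr hz
    obtain ⟨a, b, hab⟩ := hc
    have h1 : (1 : K) = a * p + b * z := by exact_mod_cast hab.symm
    have h2 : v.valuation K (1 : K) < 1 := by
      rw [h1]
      refine (Valuation.map_add _ _ _).trans_lt (max_lt ?_ ?_)
      · rw [map_mul]
        exact mul_lt_one_of_nonneg_of_lt_one_right (hle a) zero_le hvp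
      · rw [map_mul]
        exact mul_lt_one_of_nonneg_of_lt_one_right (hle b) zero_le hlt
    rw [map_one] at h2
    exact lt_irrefl _ h2
  have hmain : ∏ p ∈ S.erase 2, p ≤ badNorm g P := by
    refine hF K g P hP _ fun p hp => ?_
    rw [Finset.mem_erase] at hp
    obtain ⟨hp2, hpS⟩ := hp
    obtain ⟨hpp, hpy, hpx⟩ := hS p hpS
    refine ⟨hpp, fun v hv h0 => ?_⟩
    have hv2 : v.valuation K (2 : K) = 1 := by
      have h1 := hcop v p 2 hv hpp (by
        intro h
        have h2 : p ∣ 2 := by exact_mod_cast h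
        rcases (Nat.dvd_prime Nat.prime_two).mp h2 with h3 | h3
        · exact hpp.one_lt.ne' h3
        · exact hp2 h3)
      exact_mod_cast h1
    have hvx := hcop v p x hv hpp hpx
    have hvy : v.valuation K (y : K) < 1 := by
      obtain ⟨z, rfl⟩ := hpy
      push_cast
      rw [map_mul]
      have hle : v.valuation K (z : K) ≤ 1 := by
        have e : algebraMap (𝓞 K) K (z : 𝓞 K) = (z : K) := map_intCast _ _
        rw [← e]
        exact v.valuation_le_one _
      exact mul_lt_one_of_nonneg_of_lt_one_left zero_le hv hle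
    have h1 := hC K g hg k I hI P _ hP hQK hiso v hv2 h0
    have h2 := congrArg (v.valuation K) hxyK
    rw [map_mul, map_mul, map_pow, map_pow, hvx, one_mul] at h2
    have hpos : 0 < v.valuation K (discN (2 * g + 2) (Q.map (algebraMap ℚ K))) ^ k := by
      rw [zero_lt_iff]
      exact pow_ne_zero _ ((Valuation.ne_zero_iff _).mpr hd0)
    have h3 : v.valuation K (discN (2 * g + 2) (Q.map (algebraMap ℚ K))) ^ k <
        v.valuation K (discN (2 * g + 2) (Q.map (algebraMap ℚ K))) ^ k := by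
      calc _ = v.valuation K (y : K) *
            v.valuation K (ev (2 * g + 2) I (Q.map (algebraMap ℚ K))) ^ (4 * g + 2) := h2
        _ ≤ v.valuation K (y : K) *
            v.valuation K (discN (2 * g + 2) (Q.map (algebraMap ℚ K))) ^ k := by gcongr
        _ < 1 * v.valuation K (discN (2 * g + 2) (Q.map (algebraMap ℚ K))) ^ k := by
            gcongr
        _ = _ := one_mul _
    exact lt_irrefl _ h3
  by_cases h2 : 2 ∈ S
  · rw [← Finset.mul_prod_erase S _ h2]
    exact Nat.mul_le_mul_left _ hmain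
  · rw [Finset.erase_eq_of_notMem h2] at hmain
    omega

end

end Pool.Agent.N365.HY
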