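import Pool.Agent.N365.HY.K1
import Pool.Agent.N365.HY.I

/-!
# The inequality for all forms of the members at which many primes are poles
-/

set_option autoImplicit false

namespace Pool.Agent.N365.HY

open Polynomial NumberField IsDedekindDomain WithZero
open Pool.Agent.W318
open Pool.Agent.N365.SZ (Box mem_Box card_Box)
open Pool.Agent.Y670.RD (fv fv_le fv_eq)

/-- the inequality for all forms of `y² = Q` over all number fields of degree at most `d` -/
def AllForms (g d κ : ℕ) (Q : ℚ[X]) : Prop :=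
  ∀ (K : Type) [Field K] [NumberField K], Module.finrank ℚ K ≤ d → ∀ P : K[X], IsHyp g P →
    GeomIso P (Q.map (algebraMap ℚ K)) → discNorm g P ≤ badNorm g P ^ κ

theorem isHyp_smul {k : Type*} [Field k] {g : ℕ} {Q : k[X]} (hQ : IsHyp g Q) {r : k}
    (hr : r ≠ 0) : IsHyp g (C r * Q) := by
  have huC : IsUnit (C r : k[X]) := isUnit_C.mpr hr.isUnit
  refine ⟨?_, ?_⟩
  · rw [((associated_isUnit_mul_left_iff huC).mpr (Associated.refl _)).squarefree_iff]
    exact hQ.1
  · rw [natDegree_C_mul hr]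
    exact hQ.2

theorem GeomIso.smul {K : Type} [Field K] [NumberField K] {g : ℕ} {P Q : K[X]}
    (hQ : IsHyp g Q) (h : GeomIso P Q) {r : K} (hr : r ≠ 0) : GeomIso P (C r * Q) := by
  obtain ⟨φ⟩ := h
  obtain ⟨l, hl⟩ := IsAlgClosed.exists_pow_nat_eq (algebraMap K (AlgebraicClosure K) r)
    (n := 2) (by norm_num)
  have hr' : algebraMap K (AlgebraicClosure K) r ≠ 0 := by rwa [Ne, map_eq_zero]
  have hl0 : l ≠ 0 := by
    rintro rfl
    apply hr'
    rw [← hl]; ring
  have hdeg : (Q.map (algebraMap K (AlgebraicClosure K))).natDegree ≤ g + 1 + (g + 1) := by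
    rw [natDegree_map]
    have := hQ.2
    omega
  have he : Eqv (g + 1) (Q.map (algebraMap K (AlgebraicClosure K)))
      ((C r * Q).map (algebraMap K (AlgebraicClosure K))) := by
    refine ⟨1, 0, 0, 1, l, by simp, hl0, ?_⟩
    rw [act_one _ _ hdeg, hl, Polynomial.map_mul, Polynomial.map_C]
  obtain ⟨ψ⟩ := unbridge (by omega) he
  exact ⟨φ.trans ψ.symm⟩

theorem discN_smul {k : Type*} [Field k] {g : ℕ} {Q : k[X]} (hQ : IsHyp g Q) {r : k}
    (hr : r ≠ 0) : discN (2 * g + 2) (C r * Q) = r ^ (4 * g + 2) * discN (2 * g + 2) Q := by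
  have h1 := discN_C_mul (by omega : 1 ≤ g + 1) hr hQ.good.2
  rw [show g + 1 + (g + 1) = 2 * g + 2 by ring] at h1
  rw [h1]
  congr 2
  omega

/-- the integral form of the member at `s / u` -/
noncomputable def intForm (g N : ℕ) (F : ℤ[X][X]) (s u : ℤ) : ℤ[X] :=
  ∑ i ∈ Finset.range (2 * g + 3), C (fv N (F.coeff i) s u) * X ^ i

theorem intForm_coeff (g N : ℕ) (F : ℤ[X][X]) (s u : ℤ) (i : ℕ) :
    (intForm g N F s u).coeff i = if i < 2 * g + 3 then fv N (F.coeff i) s u else 0 := by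
  unfold intForm
  rw [finsetSum_coeff]
  simp only [coeff_C_mul_X_pow]
  rw [Finset.sum_ite_eq]
  simp only [Finset.mem_range]

theorem emb_injective : Function.Injective emb := by
  unfold emb
  rw [RingHom.coe_comp]
  refine (RatFunc.algebraMap_injective ℚ).comp ?_
  rw [coe_mapRingHom]
  exact Polynomial.map_injective _ (Int.castRingHom ℚ).injective_int

theorem natDegree_gen (F : ℤ[X][X]) : (gen F).natDegree = F.natDegree :=
  natDegree_map_eq_of_injective emb_injective F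

/-- families: the generic member is a curve of genus `g`, the coefficients have degree at most
`N` -/
structure Family (g N : ℕ) (F : ℤ[X][X]) : Prop where
  hyp : IsHyp g (gen F)
  deg : ∀ i, (F.coeff i).natDegree ≤ N

theorem Family.intForm_eq {g N : ℕ} {F : ℤ[X][X]} (hF : Family g N F) {s u : ℤ} (hu : u ≠ 0) :
    (intForm g N F s u).map (Int.castRingHom ℚ) = C ((u : ℚ) ^ N) * mem F (s / u) := by
  ext i
  rw [coeff_map, coeff_C_mul, intForm_coeff]
  unfold mem
  rw [coeff_map]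
  have hd : F.natDegree ≤ 2 * g + 2 := by
    rw [← natDegree_gen]
    have := hF.hyp.2
    omega
  split_ifs with hi
  · have h1 := fv_eq (K := ℚ) (hF.deg i) (s := s) (t := u) (by exact_mod_cast hu)
    rw [eq_intCast, h1, aeval_def]
    rfl
  · rw [coeff_eq_zero_of_natDegree_lt (by omega), map_zero, map_zero, mul_zero]

/-- the size of the integral form -/
theorem intForm_bound (g N : ℕ) (F : ℤ[X][X]) : ∃ c : ℝ, 1 ≤ c ∧ ∀ (B : ℕ) (s u : ℤ), 1 ≤ B →
    |s| ≤ B → |u| ≤ B → ∀ i, |((intForm g N F s u).coeff i : ℝ)| ≤ c * (B : ℝ) ^ N := by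
  refine ⟨∑ j ∈ Finset.range (2 * g + 3), ∑ i ∈ Finset.range (N + 1),
    |((F.coeff j).coeff i : ℝ)| + 1, ?_, fun B s u hB hs hu i => ?_⟩
  · have h0 : 0 ≤ ∑ j ∈ Finset.range (2 * g + 3), ∑ i ∈ Finset.range (N + 1),
      |((F.coeff j).coeff i : ℝ)| :=
      Finset.sum_nonneg fun _ _ => Finset.sum_nonneg fun _ _ => abs_nonneg _
    linarith
  · have h0 : ∀ j, 0 ≤ ∑ i ∈ Finset.range (N + 1), |((F.coeff j).coeff i : ℝ)| :=
      fun _ => Finset.sum_nonneg fun _ _ => abs_nonneg _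
    have h1 : 0 ≤ ∑ j ∈ Finset.range (2 * g + 3), ∑ i ∈ Finset.range (N + 1),
      |((F.coeff j).coeff i : ℝ)| := Finset.sum_nonneg fun _ _ => h0 _
    rw [intForm_coeff]
    split_ifs with hi
    · refine (fv_le N (F.coeff i) s u).trans ?_
      have hm : max |(s : ℝ)| |(u : ℝ)| ≤ B := by
        refine max_le ?_ ?_
        · exact_mod_cast hs
        · exact_mod_cast hu
      have hm0 : 0 ≤ max |(s : ℝ)| |(u : ℝ)| := le_max_of_le_left (abs_nonneg _)
      have h2 : ∑ k ∈ Finset.range (N + 1), |((F.coeff i).coeff k : ℝ)| ≤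
          ∑ j ∈ Finset.range (2 * g + 3), ∑ k ∈ Finset.range (N + 1),
            |((F.coeff j).coeff k : ℝ)| :=
        Finset.single_le_sum (f := fun j => ∑ k ∈ Finset.range (N + 1),
          |((F.coeff j).coeff k : ℝ)|) (fun j _ => h0 j) (Finset.mem_range.mpr hi)
      exact mul_le_mul (by linarith) (pow_le_pow_left₀ hm0 hm N) (by positivity) (by linarith)
    · rw [Int.cast_zero, abs_zero]
      positivity

/-- the exponent -/
noncomputable def kappa (g d N : ℕ) (η : ℝ) : ℕ :=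
  ⌈2 * (d : ℝ) * (N * (4 * g + 6) + 1) / η⌉₊ + beta g d

theorem final_ineq {β d e κ₁ : ℕ} {η : ℝ} (hη : 0 < η) {B m M D : ℕ} (hB : 1 ≤ B)
    (hm : (m : ℝ) ≤ (B : ℝ) ^ e) (hM : (B : ℝ) ^ (η / 2) ≤ M) (hD : D ≤ m ^ d * M ^ β)
    (hκ : 2 * (d : ℝ) * e / η ≤ κ₁) : D ≤ M ^ (κ₁ + β) := by
  have hB1 : (1 : ℝ) ≤ B := by exact_mod_cast hB
  have h1 : ((m ^ d : ℕ) : ℝ) ≤ ((M ^ κ₁ : ℕ) : ℝ) := by
    push_cast
    calc (m : ℝ) ^ d ≤ ((B : ℝ) ^ e) ^ d := pow_le_pow_left₀ (Nat.cast_nonneg _) hm d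
      _ = (B : ℝ) ^ ((η / 2) * (2 * (d : ℝ) * e / η)) := by
          rw [← pow_mul, ← Real.rpow_natCast]
          congr 1
          push_cast
          field_simp
      _ = ((B : ℝ) ^ (η / 2)) ^ (2 * (d : ℝ) * e / η) := by
          rw [Real.rpow_mul (by linarith)]
      _ ≤ ((B : ℝ) ^ (η / 2)) ^ (κ₁ : ℝ) :=
          Real.rpow_le_rpow_of_exponent_le (Real.one_le_rpow hB1 (by positivity)) hκ
      _ = ((B : ℝ) ^ (η / 2)) ^ κ₁ := Real.rpow_natCast _ _
      _ ≤ (M : ℝ) ^ κ₁ := pow_le_pow_left₀ (by positivity) hM _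
  have h2 : m ^ d ≤ M ^ κ₁ := by exact_mod_cast h1
  rw [pow_add]
  exact hD.trans (Nat.mul_le_mul_right _ h2)

/-- the members at which many primes are poles -/
theorem allForms_of_many (hC : PartC) (hD : PartD) (hE : PartE) (hF : PartF) (hG : PartG)
    {g : ℕ} (d N : ℕ) (hg : 2 ≤ g) {η : ℝ} (hη : 0 < η) {F : ℤ[X][X]} (hFam : Family g N F)
    {k : ℕ} {I : MvPolynomial (Fin (2 * g + 2 + 1)) ℤ} (hI : IsInvariant g k I) :
    ∃ B₀ : ℕ, ∀ B : ℕ, B₀ ≤ B → ∀ s u : ℤ, |s| ≤ B → |u| ≤ B → u ≠ 0 →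
      IsHyp g (mem F (s / u)) → ∀ x y : ℤ,
      (x : ℚ) * discN (2 * g + 2) (mem F (s / u)) ^ k =
        y * ev (2 * g + 2) I (mem F (s / u)) ^ (4 * g + 2) → Many η B x y →
      AllForms g d (kappa g d N η) (mem F (s / u)) := by
  obtain ⟨c1, hc1, hform⟩ := intForm_bound g N F
  obtain ⟨c2, hc2, hdisc⟩ := hG (2 * g + 2)
  obtain ⟨B1, hB1⟩ := exists_nat_ge ((4 : ℝ) ^ (1 / η))
  obtain ⟨B2, hB2⟩ := exists_nat_ge (c2 * c1 ^ (4 * g + 6))
  refine ⟨max 1 (max B1 B2), fun B hB s u hs hu hu0 hhyp x y hxy hmany => ?_⟩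
  have hB1' : 1 ≤ B := (le_max_left _ _).trans hB
  have hBr : (1 : ℝ) ≤ B := by exact_mod_cast hB1'
  have hBB1 : (4 : ℝ) ^ (1 / η) ≤ B := hB1.trans (by
    exact_mod_cast (le_max_left B1 B2).trans ((le_max_right _ _).trans hB))
  have hBB2 : c2 * c1 ^ (4 * g + 6) ≤ B := hB2.trans (by
    exact_mod_cast (le_max_right B1 B2).trans ((le_max_right _ _).trans hB))
  intro K _ _ hdeg P hP hiso
  obtain ⟨hy, S, hS, hprod⟩ := hmany
  have hu' : (u : ℚ) ^ N ≠ 0 := pow_ne_zero _ (by exact_mod_cast hu0)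
  have huK : (u : K) ^ N ≠ 0 := pow_ne_zero _ (by exact_mod_cast hu0)
  have hintQ := hFam.intForm_eq (s := s) hu0
  have hintHyp : IsHyp g ((intForm g N F s u).map (Int.castRingHom ℚ)) := by
    rw [hintQ]
    exact isHyp_smul hhyp hu'
  have hintK : (intForm g N F s u).map (Int.castRingHom K) =
      C ((u : K) ^ N) * (mem F (s / u)).map (algebraMap ℚ K) := by
    have e1 : (intForm g N F s u).map (Int.castRingHom K) =
        ((intForm g N F s u).map (Int.castRingHom ℚ)).map (algebraMap ℚ K) := by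
      rw [Polynomial.map_map]
      congr 1
      exact RingHom.ext_int _ _
    rw [e1, hintQ, Polynomial.map_mul, Polynomial.map_C, map_pow, map_intCast]
  have hhypK : IsHyp g ((mem F (s / u)).map (algebraMap ℚ K)) := by
    have := hhyp.good.map (algebraMap ℚ K)
    refine ⟨this.1, by have := this.2; omega⟩
  have hiso' : GeomIso P ((intForm g N F s u).map (Int.castRingHom K)) := by
    rw [hintK]
    exact hiso.smul hhypK huK
  have hhypK' : IsHyp g ((intForm g N F s u).map (Int.castRingHom K)) := by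
    rw [hintK]
    exact isHyp_smul hhypK huK
  have hne : intForm g N F s u ≠ 0 := by
    intro h0
    rw [h0, Polynomial.map_zero] at hintHyp
    exact hintHyp.1.ne_zero rfl
  have hdeg2 : (intForm g N F s u).natDegree ≤ 2 * g + 2 := by
    rw [natDegree_le_iff_coeff_eq_zero]
    intro i hi
    rw [intForm_coeff, if_neg (by omega)]
  obtain ⟨m, hm, hmle⟩ := hdisc (intForm g N F s u) (c1 * (B : ℝ) ^ N)
    (by have := one_le_pow₀ hBr (n := N); nlinarith) hne hdeg2 (hform B s u hB1' hs hu)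
  have hup := discNorm_le_of hD hE g d hg hdeg P (intForm g N F s u) hP hhypK' hiso' m hm
  have hlow := prod_le_badNorm hC hF hg hI hhyp hxy hS hP hiso
  have hm2 : ((m.natAbs : ℕ) : ℝ) ≤ (B : ℝ) ^ (N * (4 * g + 6) + 1) := by
    rw [Nat.cast_natAbs, Int.cast_abs]
    refine hmle.trans ?_
    rw [show 2 * (2 * g + 2) + 2 = 4 * g + 6 by ring, mul_pow, ← mul_assoc,
      pow_succ (B : ℝ) (N * (4 * g + 6)), ← pow_mul (B : ℝ),
      mul_comm ((B : ℝ) ^ (N * (4 * g + 6))) (B : ℝ)]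
    exact mul_le_mul_of_nonneg_right hBB2 (by positivity)
  have h4 : (2 : ℝ) ≤ (B : ℝ) ^ (η / 2) := by
    have e1 : (2 : ℝ) = ((4 : ℝ) ^ (1 / η)) ^ (η / 2) := by
      rw [← Real.rpow_mul (by norm_num)]
      have : 1 / η * (η / 2) = 1 / 2 := by field_simp
      rw [this, ← Real.sqrt_eq_rpow, show (4 : ℝ) = 2 ^ 2 by norm_num,
        Real.sqrt_sq (by norm_num)]
    calc (2 : ℝ) = ((4 : ℝ) ^ (1 / η)) ^ (η / 2) := e1
      _ ≤ (B : ℝ) ^ (η / 2) := Real.rpow_le_rpow (by positivity) hBB1 (by positivity)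
  have hM : (B : ℝ) ^ (η / 2) ≤ (badNorm g P : ℝ) := by
    have h5 : (B : ℝ) ^ η ≤ 2 * (badNorm g P : ℝ) := hprod.trans (by exact_mod_cast hlow)
    have h6 : (B : ℝ) ^ η = (B : ℝ) ^ (η / 2) * (B : ℝ) ^ (η / 2) := by
      rw [← Real.rpow_add (by linarith)]
      congr 1
      ring
    rw [h6] at h5
    nlinarith
  unfold kappa
  refine final_ineq (β := beta g d) (d := d) (e := N * (4 * g + 6) + 1) hη hB1' hm2 hM
    hup ?_
  push_cast
  exact Nat.le_ceil _

end Pool.Agent.N365.HY
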