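import Pool.Agent.N365.HY.K2

/-!
# All but few members of a family
-/

set_option autoImplicit false

namespace Pool.Agent.N365.HY

open Polynomial NumberField IsDedekindDomain WithZero
open Pool.Agent.W318
open Pool.Agent.N365.SZ (Box mem_Box card_Box)
open Pool.Agent.Y670.RD (fv fv_le fv_eq toQ)
open Pool.Agent.N365.LS (Rat poleCount)

/-- the member at `t` is a curve of genus `g`, and the inequality holds for all its forms over all
number fields of degree at most `d` -/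
def Holds (g d κ : ℕ) (F : ℤ[X][X]) (t : ℚ) : Prop :=
  IsHyp g (mem F t) ∧ AllForms g d κ (mem F t)

/-- the values of a function in lowest terms -/
theorem scale_eq {g k : ℕ} {A D : ℤ[X]} {M : ℕ} (hA : A.natDegree ≤ M) (hD : D.natDegree ≤ M)
    {s u : ℤ} (hu : u ≠ 0) {Δ V : ℚ}
    (h : eval₂ (Int.castRingHom ℚ) ((s : ℚ) / u) A * Δ ^ k =
      eval₂ (Int.castRingHom ℚ) ((s : ℚ) / u) D * V ^ (4 * g + 2)) :
    ((fv M A s u : ℤ) : ℚ) * Δ ^ k = ((fv M D s u : ℤ) : ℚ) * V ^ (4 * g + 2) := by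
  have h1 := fv_eq (K := ℚ) hA (s := s) (t := u) (by exact_mod_cast hu)
  have h2 := fv_eq (K := ℚ) hD (s := s) (t := u) (by exact_mod_cast hu)
  rw [h1, h2, mul_assoc, mul_assoc]
  congr 1

/-- all but few rational members -/
theorem few_rat (hC : PartC) (hD : PartD) (hE : PartE) (hF : PartF) (hG : PartG) (hH : PartH)
    {g : ℕ} (d N : ℕ) (hg : 2 ≤ g) {ε : ℝ} (hε : 0 < ε) {F : ℤ[X][X]} (hFam : Family g N F)
    {k : ℕ} {I : MvPolynomial (Fin (2 * g + 2 + 1)) ℤ} (hI : IsInvariant g k I) {M : ℕ}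
    {A D : ℤ[X]} (hR : Rat M A D)
    (hJ : emb A * discN (2 * g + 2) (gen F) ^ k = emb D * ev (2 * g + 2) I (gen F) ^ (4 * g + 2)) :
    ∃ C : ℝ, ∀ B : ℕ, 1 ≤ B → ({t : ℚ | |t.num| ≤ B ∧ t.den ≤ B ∧
      ¬ Holds g d (kappa g d N (ε / 8)) F t}.ncard : ℝ) ≤
        C * (B : ℝ) ^ (if 2 ≤ poleCount M D then ε else 1 + ε) := by
  classical
  obtain ⟨C, hC0, hc⟩ := many_rat hR ε hε
  obtain ⟨Z, hZ⟩ := hH g F hFam.hyp k I A D hJ
  obtain ⟨B₀, hB₀⟩ := allForms_of_many hC hD hE hF hG d N hg (η := ε / 8) (by positivity) hFam hI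
  obtain ⟨ex, hex⟩ : ∃ ex : ℝ, ex = if 2 ≤ poleCount M D then ε else 1 + ε := ⟨_, rfl⟩
  have hex0 : 0 ≤ ex := by rw [hex]; split_ifs <;> linarith
  rw [← hex] at hc ⊢
  refine ⟨C + Z.card + (2 * B₀ + 1) ^ 2, fun B hB => ?_⟩
  have hB1 : (1 : ℝ) ≤ B := by exact_mod_cast hB
  have hpw : 1 ≤ (B : ℝ) ^ ex := Real.one_le_rpow hB1 hex0
  have hinj : Function.Injective (fun t : ℚ => ((t.num, (t.den : ℤ)) : ℤ × ℤ)) := by
    intro a b hab
    rw [Prod.mk.injEq] at hab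
    exact Rat.ext hab.1 (by exact_mod_cast hab.2)
  have hbox : ∀ (b : ℕ) (t : ℚ), |t.num| ≤ b → t.den ≤ b →
      ((t.num, (t.den : ℤ)) : ℤ × ℤ) ∈ Box b := by
    intro b t h1 h2
    rw [mem_Box]
    refine ⟨⟨h1, ?_⟩, ?_⟩
    · show |(t.den : ℤ)| ≤ (b : ℤ)
      rw [abs_of_nonneg (by positivity)]
      exact_mod_cast h2
    · exact Rat.isCoprime_num_den t
  rcases lt_or_ge B B₀ with hBB | hBB
  · have h1 : ({t : ℚ | |t.num| ≤ B ∧ t.den ≤ B ∧
        ¬ Holds g d (kappa g d N (ε / 8)) F t}.ncard : ℝ) ≤ ((Box B).card : ℝ) := by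
      rw [← Set.ncard_coe_finset (Box B)]
      refine Nat.cast_le.mpr (Set.ncard_le_ncard_of_injOn _ (fun t ht => ?_) (hinj.injOn)
        (Finset.finite_toSet _))
      exact hbox B t ht.1 ht.2.1
    have h2 := card_Box B
    have h3 : (2 * (B : ℝ) + 1) ^ 2 ≤ (2 * B₀ + 1) ^ 2 := by
      have : (B : ℝ) ≤ B₀ := by exact_mod_cast hBB.le
      exact pow_le_pow_left₀ (by positivity) (by linarith) 2
    have h4 : 0 ≤ C + (Z.card : ℝ) := by positivity
    calc _ ≤ ((Box B).card : ℝ) := h1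
      _ ≤ (2 * (B₀ : ℝ) + 1) ^ 2 := h2.trans h3
      _ ≤ (C + Z.card + (2 * B₀ + 1) ^ 2) * 1 := by linarith
      _ ≤ _ := mul_le_mul_of_nonneg_left hpw (by positivity)
  · obtain ⟨E, hEc, hEg⟩ := hc B hB
    have hsub : {t : ℚ | |t.num| ≤ B ∧ t.den ≤ B ∧ ¬ Holds g d (kappa g d N (ε / 8)) F t} ⊆
        (fun t : ℚ => ((t.num, (t.den : ℤ)) : ℤ × ℤ)) ⁻¹' (E : Set (ℤ × ℤ)) ∪ (Z : Set ℚ) := by
      rintro t ⟨h1, h2, h3⟩
      by_contra hcon
      rw [Set.mem_union, Set.mem_preimage, Finset.mem_coe, Finset.mem_coe, not_or] at hcon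
      obtain ⟨hhyp, hid⟩ := hZ t hcon.2
      have hden : (t.den : ℤ) ≠ 0 := by exact_mod_cast t.den_ne_zero
      have ht : t = ((t.num : ℤ) : ℚ) / ((t.den : ℤ) : ℚ) := by
        have := Rat.num_div_den t
        push_cast
        exact this.symm
      have hmany := hEg _ (hbox B t h1 h2) hcon.1
      have hid' := hid
      rw [ht] at hid'
      have hsc := scale_eq (g := g) (k := k) hR.degA hR.degD hden hid'
      rw [← ht] at hsc
      have h5 := hB₀ B hBB t.num t.den h1 (by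
        rw [abs_of_nonneg (by positivity)]
        exact_mod_cast h2) hden (by rw [← ht]; exact hhyp) _ _ (by rw [← ht]; exact hsc) hmany
      rw [← ht] at h5
      exact h3 ⟨hhyp, h5⟩
    have hfin : ((fun t : ℚ => ((t.num, (t.den : ℤ)) : ℤ × ℤ)) ⁻¹' (E : Set (ℤ × ℤ))).Finite :=
      Set.Finite.preimage hinj.injOn (Finset.finite_toSet E)
    have h1 : {t : ℚ | |t.num| ≤ B ∧ t.den ≤ B ∧
        ¬ Holds g d (kappa g d N (ε / 8)) F t}.ncard ≤ E.card + Z.card := by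
      refine (Set.ncard_le_ncard hsub (hfin.union (Finset.finite_toSet Z))).trans ?_
      refine (Set.ncard_union_le _ _).trans ?_
      rw [Set.ncard_coe_finset Z]
      refine Nat.add_le_add_right ?_ _
      rw [← Set.ncard_coe_finset E]
      exact Set.ncard_le_ncard_of_injOn _ (fun t ht => ht) hinj.injOn (Finset.finite_toSet E)
    have h2 : ({t : ℚ | |t.num| ≤ B ∧ t.den ≤ B ∧
        ¬ Holds g d (kappa g d N (ε / 8)) F t}.ncard : ℝ) ≤ E.card + Z.card := by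
      exact_mod_cast h1
    have hZ0 : (0 : ℝ) ≤ Z.card := Nat.cast_nonneg _
    have h3 : (Z.card : ℝ) ≤ Z.card * (B : ℝ) ^ ex := le_mul_of_one_le_right hZ0 hpw
    have h4 : 0 ≤ (2 * (B₀ : ℝ) + 1) ^ 2 * (B : ℝ) ^ ex := by positivity
    have e : (C + Z.card + (2 * B₀ + 1) ^ 2) * (B : ℝ) ^ ex =
      C * (B : ℝ) ^ ex + Z.card * (B : ℝ) ^ ex + (2 * B₀ + 1) ^ 2 * (B : ℝ) ^ ex := by ring
    rw [e]
    linarith

/-- all but few integral members, if the function has a finite pole -/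
theorem few_int (hC : PartC) (hD : PartD) (hE : PartE) (hF : PartF) (hG : PartG) (hH : PartH)
    {g : ℕ} (d N : ℕ) (hg : 2 ≤ g) {ε : ℝ} (hε : 0 < ε) {F : ℤ[X][X]} (hFam : Family g N F)
    {k : ℕ} {I : MvPolynomial (Fin (2 * g + 2 + 1)) ℤ} (hI : IsInvariant g k I) {M : ℕ}
    {A D : ℤ[X]} (hR : Rat M A D) (hD1 : 1 ≤ D.natDegree)
    (hJ : emb A * discN (2 * g + 2) (gen F) ^ k = emb D * ev (2 * g + 2) I (gen F) ^ (4 * g + 2)) :
    ∃ C : ℝ, ∀ B : ℕ, 1 ≤ B → ({t : ℤ | |t| ≤ B ∧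
      ¬ Holds g d (kappa g d N (ε / 8)) F t}.ncard : ℝ) ≤ C * (B : ℝ) ^ ε := by
  classical
  obtain ⟨C, hC0, hc⟩ := many_int hR hD1 ε hε
  obtain ⟨Z, hZ⟩ := hH g F hFam.hyp k I A D hJ
  obtain ⟨B₀, hB₀⟩ := allForms_of_many hC hD hE hF hG d N hg (η := ε / 8) (by positivity) hFam hI
  refine ⟨C + Z.card + (2 * B₀ + 1), fun B hB => ?_⟩
  have hB1 : (1 : ℝ) ≤ B := by exact_mod_cast hB
  have hpw : 1 ≤ (B : ℝ) ^ ε := Real.one_le_rpow hB1 hε.le
  have hIcc : ∀ b : ℕ, ((Finset.Icc (-(b : ℤ)) b).card : ℝ) = 2 * b + 1 := by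
    intro b
    rw [Int.card_Icc]
    have e : ((b : ℤ) + 1 - -(b : ℤ)).toNat = 2 * b + 1 := by omega
    rw [e]
    push_cast
    ring
  rcases lt_or_ge B B₀ with hBB | hBB
  · have h1 : ({t : ℤ | |t| ≤ B ∧
        ¬ Holds g d (kappa g d N (ε / 8)) F t}.ncard : ℝ) ≤
          ((Finset.Icc (-(B : ℤ)) B).card : ℝ) := by
      rw [← Set.ncard_coe_finset (Finset.Icc (-(B : ℤ)) B)]
      refine Nat.cast_le.mpr (Set.ncard_le_ncard (fun t ht => ?_) (Finset.finite_toSet _))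
      rw [Finset.mem_coe, Finset.mem_Icc]
      exact abs_le.mp ht.1
    rw [hIcc] at h1
    have h3 : (B : ℝ) ≤ B₀ := by exact_mod_cast hBB.le
    have h4 : 0 ≤ C + (Z.card : ℝ) := by positivity
    calc _ ≤ 2 * (B : ℝ) + 1 := h1
      _ ≤ (C + Z.card + (2 * B₀ + 1)) * 1 := by linarith
      _ ≤ _ := mul_le_mul_of_nonneg_left hpw (by positivity)
  · obtain ⟨E, hEc, hEg⟩ := hc B hB
    have hinj : Function.Injective (fun t : ℤ => (t : ℚ)) := Int.cast_injective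
    have hsub : {t : ℤ | |t| ≤ B ∧ ¬ Holds g d (kappa g d N (ε / 8)) F t} ⊆
        (E : Set ℤ) ∪ (fun t : ℤ => (t : ℚ)) ⁻¹' (Z : Set ℚ) := by
      rintro t ⟨h1, h3⟩
      by_contra hcon
      rw [Set.mem_union, Set.mem_preimage, Finset.mem_coe, Finset.mem_coe, not_or] at hcon
      obtain ⟨hhyp, hid⟩ := hZ t hcon.2
      have ht : (t : ℚ) = ((t : ℤ) : ℚ) / ((1 : ℤ) : ℚ) := by simp
      have hmany := hEg t h1 hcon.1
      have hid' := hid
      rw [ht] at hid'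
      have hsc := scale_eq (g := g) (k := k) hR.degA hR.degD one_ne_zero hid'
      rw [← ht, Pool.Agent.N365.LS.fv_int M hR.degA, Pool.Agent.N365.LS.fv_int M hR.degD] at hsc
      have h5 := hB₀ B hBB t 1 h1 (by
        rw [abs_one]
        exact_mod_cast hB) one_ne_zero (by rw [← ht]; exact hhyp) _ _
          (by rw [← ht]; exact hsc) hmany
      rw [← ht] at h5
      exact h3 ⟨hhyp, h5⟩
    have hfin : ((fun t : ℤ => (t : ℚ)) ⁻¹' (Z : Set ℚ)).Finite :=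
      Set.Finite.preimage hinj.injOn (Finset.finite_toSet Z)
    have h1 : {t : ℤ | |t| ≤ B ∧
        ¬ Holds g d (kappa g d N (ε / 8)) F t}.ncard ≤ E.card + Z.card := by
      refine (Set.ncard_le_ncard hsub ((Finset.finite_toSet E).union hfin)).trans ?_
      refine (Set.ncard_union_le _ _).trans ?_
      rw [Set.ncard_coe_finset E]
      refine Nat.add_le_add_left ?_ _
      rw [← Set.ncard_coe_finset Z]
      exact Set.ncard_le_ncard_of_injOn _ (fun t ht => ht) hinj.injOn (Finset.finite_toSet Z)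
    have h2 : ({t : ℤ | |t| ≤ B ∧
        ¬ Holds g d (kappa g d N (ε / 8)) F t}.ncard : ℝ) ≤ E.card + Z.card := by
      exact_mod_cast h1
    have hZ0 : (0 : ℝ) ≤ Z.card := Nat.cast_nonneg _
    have h3 : (Z.card : ℝ) ≤ Z.card * (B : ℝ) ^ ε := le_mul_of_one_le_right hZ0 hpw
    have h4 : 0 ≤ (2 * (B₀ : ℝ) + 1) * (B : ℝ) ^ ε := by positivity
    have e : (C + Z.card + (2 * B₀ + 1)) * (B : ℝ) ^ ε =
      C * (B : ℝ) ^ ε + Z.card * (B : ℝ) ^ ε + (2 * B₀ + 1) * (B : ℝ) ^ ε := by ring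
    rw [e]
    linarith

end Pool.Agent.N365.HY
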